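import Pool.Agent.Lib.MP_131fce_co.U.Types

/-!
# The bound `13 / 10` for the normalised number of induced `k`-cycles (`k ≥ 11`)
-/

set_option autoImplicit false

namespace Pool.Agent.ICycU

open Finset Pool.Agent.ICycK
open scoped Classical

variable {V : Type} [Fintype V] {G : SimpleGraph V} {k : ℕ} [NeZero k]

lemma rh_le : rh ≤ 1079 / 1000 := by
  unfold rh
  have := Real.exp_one_lt_d9
  nlinarith

/-- price of one gained vertex -/
noncomputable def br : ℝ := Real.log (37 / 24) * rh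

lemma log_nonneg' : 0 ≤ Real.log (37 / 24 : ℝ) := Real.log_nonneg (by norm_num)

lemma br_le : br ≤ 12 / 25 := by
  have h1 : Real.log (37 / 24 : ℝ) ≤ 111 / 250 := by
    rw [Real.log_le_iff_le_exp (by norm_num)]
    have := Real.quadratic_le_exp_of_nonneg (show (0 : ℝ) ≤ 111 / 250 by norm_num)
    linarith
  unfold br
  have h2 := rh_le
  have h3 := log_nonneg'
  have h4 := one_le_rh
  nlinarith

/-- total coefficient of a vertex in the linearised entropy inequality -/
noncomputable def cf (G : SimpleGraph V) (k : ℕ) [NeZero k] (x : ZMod k → V) (w : V) : ℝ :=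
  51 / 25 * (((Ty G k x w).card : ℝ) / 2) +
  24 / 25 * (∑ j : ZMod k, if w ∈ T G k j x then (1 : ℝ) else 0) +
  br * (gc k (Ty G k x w) + 2 * (if (Ty G k x w).card = 1 then (1 : ℝ) else 0)) +
  cnt G k x w - ((k : ℝ) - 1)

lemma sum_T_zero {x : ZMod k → V} {w : V} (h : ¬ isT k (Ty G k x w)) :
    (∑ j : ZMod k, if w ∈ T G k j x then (1 : ℝ) else 0) = 0 := by
  apply Finset.sum_eq_zero
  intro i _
  rw [if_neg]
  intro hw
  exact h ⟨i, bas_mem_T.1 hw⟩

lemma cf_le (hk : 11 ≤ k) (tf : ∀ a b c : V, G.Adj a b → G.Adj b c → ¬ G.Adj a c)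
    {x : ZMod k → V} (hx : x ∈ Cyc G k) (w : V) : cf G k x w ≤ 0 := by
  have hkR : (11 : ℝ) ≤ (k : ℝ) := by exact_mod_cast hk
  have hbr := br_le
  unfold cf
  by_cases hT : isT k (Ty G k x w)
  · obtain ⟨j, hj⟩ := id hT
    have hc : (Ty G k x w).card = 2 := by rw [hj]; exact pair_card hk j
    have h1 := sum_T_boole (G := G) hk hj
    have h2 := cnt_two (G := G) tf hx w
    have h3 : gc k (Ty G k x w) = 0 := if_pos hT
    rw [hc] at h2
    rw [h1, h3, hc, if_neg (by norm_num)]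
    push_cast at h2 ⊢
    linarith
  · have h1 := sum_T_zero (G := G) hT
    have h3 : gc k (Ty G k x w) = ((Ty G k x w).card : ℝ) := if_neg hT
    rw [h1, h3]
    rcases Nat.lt_or_ge (Ty G k x w).card 2 with hc | hc
    · interval_cases hcc : (Ty G k x w).card
      · have h2 := ic15_cnt_zero (G := G) hcc
        rw [h2, if_neg (by norm_num)]
        push_cast
        linarith
      · have h2 := cnt_one (G := G) hk hcc
        rw [if_pos rfl]
        push_cast
        linarith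
    · have h2 := cnt_two (G := G) tf hx w
      have hcR : (2 : ℝ) ≤ ((Ty G k x w).card : ℝ) := by exact_mod_cast hc
      rw [if_neg (by omega)]
      nlinarith

lemma sum_kap_const (c : ℝ) [Nonempty V] : ∑ _w : V, kap V k * c = (k : ℝ) * c := by
  rw [← sum_mul, sum_kap]

/-- the normalised count -/
theorem NN_le (hk : 11 ≤ k) (tf : ∀ a b c : V, G.Adj a b → G.Adj b c → ¬ G.Adj a c)
    (hne : (Cyc G k).Nonempty) : NN G k * kap V k ^ k ≤ 13 / 10 * (2 * (k : ℝ)) := by
  obtain ⟨x0, hx0⟩ := id hne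
  have : Nonempty V := ⟨x0 0⟩
  have hk0 : (0 : ℝ) < (k : ℝ) := by exact_mod_cast (by omega : 0 < k)
  have hkap : 0 < kap V k := kap_pos
  have hN : 0 < NN G k := by
    unfold NN
    exact_mod_cast card_pos.2 ⟨x0, hx0⟩
  set L := Real.log (NN G k * kap V k ^ k / (2 * (k : ℝ))) with hL
  have h1 := entropy (G := G) (k := k) hk tf hne
  rw [← hL] at h1
  have hth := sum_theta (G := G) (k := k) hk tf
  have hA1 := sumcoef_dg (G := G) (k := k)
  have hA2 := sumcoef_F (G := G) (k := k)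
  have hA3 := sumcoef_T (G := G) (k := k)
  have hNN : ∑ _x ∈ Cyc G k, (1 : ℝ) = NN G k := by
    unfold NN; rw [sum_const, nsmul_eq_mul, mul_one]
  have e3 : ∑ l ∈ Icc 2 (k - 3), ∑ x ∈ Cyc G k, (mu k (F G k l x) - 1) =
      ∑ x ∈ Cyc G k, ∑ l ∈ Icc 2 (k - 3), mu k (F G k l x) - ((k : ℝ) - 4) * NN G k := by
    have h : ∀ l ∈ Icc 2 (k - 3), ∑ x ∈ Cyc G k, (mu k (F G k l x) - 1) =
        ∑ x ∈ Cyc G k, mu k (F G k l x) - NN G k := by
      intro l _
      rw [sum_sub_distrib, hNN]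
    rw [sum_congr rfl h, sum_sub_distrib, sum_const, Nat.card_Icc, nsmul_eq_mul, sum_comm]
    have : k - 3 + 1 - 2 = k - 4 := by omega
    rw [this, Nat.cast_sub (by omega)]
    norm_num
  rw [e3] at h1
  -- total coefficient
  have hcf : ∑ x ∈ Cyc G k, ∑ w : V, kap V k * cf G k x w ≤ 0 := by
    refine sum_nonpos fun x hx => sum_nonpos fun w _ => ?_
    exact mul_nonpos_of_nonneg_of_nonpos hkap.le (cf_le hk tf hx w)
  have hS1 : ∑ x ∈ Cyc G k, ∑ w : V, (if (Ty G k x w).card = 1 then kap V k else 0) =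
      ∑ x ∈ Cyc G k, ∑ w : V, kap V k * (if (Ty G k x w).card = 1 then (1 : ℝ) else 0) := by
    refine sum_congr rfl fun x _ => sum_congr rfl fun w _ => ?_
    split_ifs <;> ring
  rw [hS1] at hth
  have hth2 := mul_le_mul_of_nonneg_left hth log_nonneg'
  have hexp : ∑ x ∈ Cyc G k, ∑ w : V, kap V k * cf G k x w =
      51 / 25 * (∑ x ∈ Cyc G k, ∑ w : V, kap V k * (((Ty G k x w).card : ℝ) / 2)) +
      24 / 25 * (∑ x ∈ Cyc G k, ∑ w : V,
          kap V k * (∑ j : ZMod k, if w ∈ T G k j x then (1 : ℝ) else 0)) +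
      Real.log (37 / 24) * (rh * (∑ x ∈ Cyc G k, ∑ w : V, kap V k * gc k (Ty G k x w) +
          2 * ∑ x ∈ Cyc G k, ∑ w : V,
            kap V k * (if (Ty G k x w).card = 1 then (1 : ℝ) else 0))) +
      ∑ x ∈ Cyc G k, ∑ w : V, kap V k * cnt G k x w - (k : ℝ) * ((k : ℝ) - 1) * NN G k := by
    have h4 : (k : ℝ) * ((k : ℝ) - 1) * NN G k =
        ∑ _x ∈ Cyc G k, ∑ _w : V, kap V k * ((k : ℝ) - 1) := by
      rw [← hNN, mul_sum]
      refine sum_congr rfl fun x _ => ?_
      rw [sum_kap_const]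
      ring
    rw [h4]
    simp only [mul_sum, ← sum_add_distrib, ← sum_sub_distrib]
    refine sum_congr rfl fun x _ => sum_congr rfl fun w _ => ?_
    unfold cf br
    simp only [mul_sum, mul_add, mul_sub]
    ring_nf
  rw [hexp, ← hA1, ← hA2, ← hA3] at hcf
  have h3 : (k : ℝ) * (NN G k * L) ≤ (k : ℝ) * (NN G k * (-Real.log (481 / 625))) := by
    have g1 := mul_le_mul_of_nonneg_left h1 hk0.le
    nlinarith
  have h4 : L ≤ -Real.log (481 / 625) :=
    le_of_mul_le_mul_left (le_of_mul_le_mul_left h3 hk0) hN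
  have h5 : -Real.log (481 / 625) ≤ Real.log (13 / 10) := by
    rw [← Real.log_inv]
    exact Real.log_le_log (by norm_num) (by norm_num)
  have h6 : NN G k * kap V k ^ k / (2 * (k : ℝ)) ≤ 13 / 10 := by
    have hpos : 0 < NN G k * kap V k ^ k / (2 * (k : ℝ)) := by positivity
    exact (Real.log_le_log_iff hpos (by norm_num)).1 (h4.trans h5)
  rwa [div_le_iff₀ (by positivity)] at h6

end Pool.Agent.ICycU
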