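import Pool.Agent.Lib.MP_131fce_co.K.Deficit
import Pool.Agent.Lib.MP_131fce_co.K.SubProb
import Pool.Agent.Lib.MP_131fce_co.U.LogCard

/-!
# The Gibbs inequality with an arbitrary kernel on the second neighbour (`k ≥ 11`)
-/

set_option autoImplicit false

namespace Pool.Agent.ICycU

open Finset Pool.Agent.ICycK
open scoped Classical

variable {V : Type} [Fintype V] {G : SimpleGraph V} {k : ℕ} [NeZero k]

/-- normaliser of the kernel `K` at `(x 1, x 0)` -/
noncomputable def ZK (G : SimpleGraph V) (k : ℕ) (K : V → V → ℝ) (x : ZMod k → V) : ℝ :=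
  kap V k * ∑ z ∈ nb G (x 1), K (x 0) z

/-- law of `(x 1, x 0, x 2)` -/
noncomputable def qK (G : SimpleGraph V) (k : ℕ) (K : V → V → ℝ) (x : ZMod k → V) : ℝ :=
  (1 / (Fintype.card V : ℝ)) * (1 / ((nb G (x 1)).card : ℝ)) *
    (K (x 0) (x 2) / ∑ z ∈ nb G (x 1), K (x 0) z)

lemma adj10 (hk : 11 ≤ k) {x : ZMod k → V} (hx : x ∈ Cyc G k) : G.Adj (x 1) (x 0) := by
  have h := (adj_nat (by omega) hx (i := 1) (j := 0) (by omega) (by omega)).2
    (Or.inr (Or.inl rfl))
  exact_mod_cast h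

lemma adj12 (hk : 11 ≤ k) {x : ZMod k → V} (hx : x ∈ Cyc G k) : G.Adj (x 1) (x 2) := by
  have h := (adj_nat (by omega) hx (i := 1) (j := 2) (by omega) (by omega)).2 (Or.inl rfl)
  exact_mod_cast h

lemma adj23 (hk : 11 ≤ k) {x : ZMod k → V} (hx : x ∈ Cyc G k) : G.Adj (x 2) (x 3) := by
  have h := (adj_nat (by omega) hx (i := 2) (j := 3) (by omega) (by omega)).2 (Or.inl rfl)
  exact_mod_cast h

lemma nadj03 (hk : 11 ≤ k) {x : ZMod k → V} (hx : x ∈ Cyc G k) : ¬ G.Adj (x 0) (x 3) := by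
  have h := (adj_nat (by omega) hx (i := 0) (j := 3) (by omega) (by omega)).not.2 (by omega)
  exact_mod_cast h

/-- uniform law on the neighbourhood -/
noncomputable def uA (G : SimpleGraph V) (a b : V) : ℝ :=
  if b ∈ nb G a then (1 : ℝ) / ((nb G a).card : ℝ) else 0

/-- the law of `x 2` -/
noncomputable def uB (G : SimpleGraph V) (K : V → V → ℝ) (a b c : V) : ℝ :=
  if c ∈ nb G a then K b c / ∑ z ∈ nb G a, K b z else 0

/-- the law as a function of the three vertices -/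
noncomputable def uQ (G : SimpleGraph V) (K : V → V → ℝ) (t : V × V × V) : ℝ :=
  (1 / (Fintype.card V : ℝ)) * (uA G t.1 t.2.1 * uB G K t.1 t.2.1 t.2.2)

lemma uA_nonneg (a b : V) : 0 ≤ uA G a b := by
  unfold uA; split_ifs <;> positivity

lemma uB_nonneg {K : V → V → ℝ} (hK : ∀ a b, 0 ≤ K a b) (a b c : V) : 0 ≤ uB G K a b c := by
  unfold uB; split_ifs
  · exact div_nonneg (hK _ _) (sum_nonneg fun z _ => hK _ _)
  · exact le_rfl

lemma uQ_nonneg {K : V → V → ℝ} (hK : ∀ a b, 0 ≤ K a b) (t : V × V × V) : 0 ≤ uQ G K t :=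
  mul_nonneg (by positivity) (mul_nonneg (uA_nonneg _ _) (uB_nonneg hK _ _ _))

lemma uQ_sum {K : V → V → ℝ} : ∑ t : V × V × V, uQ G K t ≤ 1 := by
  rw [Fintype.sum_prod_type]
  simp_rw [Fintype.sum_prod_type]
  unfold uQ
  have h2 : ∀ a b : V, ∑ c, uB G K a b c ≤ 1 := fun a b => sp_normal (nb G a) (fun z => K b z)
  have h1 : ∀ a : V, ∑ b, uA G a b ≤ 1 := by
    intro a
    have := sp_normal (nb G a) (fun _ => (1 : ℝ))
    simpa [uA] using this
  have h0 : ∑ _a : V, (1 / (Fintype.card V : ℝ)) ≤ 1 := by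
    rw [sum_const, card_univ, nsmul_eq_mul, mul_one_div]
    exact div_self_le_one _
  have hc : (0 : ℝ) ≤ 1 / (Fintype.card V : ℝ) := by positivity
  refine le_trans (sum_le_sum (g := fun _ => 1 / (Fintype.card V : ℝ)) fun a _ => ?_) h0
  have hb : ∀ b, ∑ c, (1 / (Fintype.card V : ℝ)) * (uA G a b * uB G K a b c) ≤
      (1 / (Fintype.card V : ℝ)) * uA G a b := by
    intro b
    have e : ∑ c, (1 / (Fintype.card V : ℝ)) * (uA G a b * uB G K a b c) =
        ((1 / (Fintype.card V : ℝ)) * uA G a b) * ∑ c, uB G K a b c := by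
      rw [mul_sum]; exact sum_congr rfl fun d _ => by ring
    rw [e]
    have h3 : 0 ≤ (1 / (Fintype.card V : ℝ)) * uA G a b := mul_nonneg hc (uA_nonneg _ _)
    nlinarith [h2 a b]
  refine (sum_le_sum fun b _ => hb b).trans ?_
  rw [← mul_sum]
  nlinarith [h1 a, hc]

/-- the three first vertices -/
def uPhi (k : ℕ) [NeZero k] (x : ZMod k → V) : V × V × V := (x 1, x 0, x 2)

lemma uQ_eq (hk : 11 ≤ k) {K : V → V → ℝ} {x : ZMod k → V} (hx : x ∈ Cyc G k) :
    uQ G K (uPhi k x) = qK G k K x := by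
  have m2 : x 2 ∈ nb G (x 1) := bas_mem_nb.2 (adj12 hk hx)
  have m0 : x 0 ∈ nb G (x 1) := bas_mem_nb.2 (adj10 hk hx)
  show (1 / (Fintype.card V : ℝ)) * (uA G (x 1) (x 0) * uB G K (x 1) (x 0) (x 2)) = qK G k K x
  unfold uA uB qK
  rw [if_pos m2, if_pos m0]
  ring

lemma uCyl_eq {x : ZMod k → V} :
    cyl G k 2 x = (Cyc G k).filter (fun x' => uPhi k x' = uPhi k x) := by
  unfold cyl
  apply filter_congr
  intro x' _
  unfold uPhi
  constructor
  · intro h
    have e0 := h 0 (by omega)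
    have e1 := h 1 (by omega)
    have e2 := h 2 (by omega)
    norm_num at e0 e1 e2
    rw [e0, e1, e2]
  · intro h i hi
    simp only [Prod.mk.injEq] at h
    obtain ⟨e1, e0, e2⟩ := h
    interval_cases i
    · simpa using e0
    · simpa using e1
    · simpa using e2

theorem sub_prob (hk : 11 ≤ k) {K : V → V → ℝ} (hK : ∀ a b, 0 ≤ K a b) :
    ∑ x ∈ Cyc G k, qK G k K x / ((cyl G k 2 x).card : ℝ) ≤ 1 := by
  rw [← sum_fiberwise (Cyc G k) (uPhi k)]
  refine le_trans (sum_le_sum (g := fun t => uQ G K t) ?_) uQ_sum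
  intro t _
  have hfib : ∀ x ∈ (Cyc G k).filter (fun x => uPhi k x = t),
      qK G k K x / ((cyl G k 2 x).card : ℝ) =
        uQ G K t / (((Cyc G k).filter (fun x => uPhi k x = t)).card : ℝ) := by
    intro x hx
    rw [mem_filter] at hx
    obtain ⟨hx1, hx2⟩ := hx
    subst hx2
    rw [uCyl_eq, uQ_eq hk hx1]
  rw [sum_congr rfl hfib, sum_const, nsmul_eq_mul]
  rcases Nat.eq_zero_or_pos ((Cyc G k).filter (fun x => uPhi k x = t)).card with h0 | h0
  · rw [h0]; simpa using uQ_nonneg (G := G) hK t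
  · have : (0 : ℝ) < (((Cyc G k).filter (fun x => uPhi k x = t)).card : ℝ) := by
      exact_mod_cast h0
    rw [mul_div_cancel₀ _ this.ne']

private theorem log_aux {n A E S1 : ℝ} (hn : 0 < n) (hA : 0 < A) (hE : 0 < E) (hS1 : 0 < S1) :
    Real.log ((1 / n) * (1 / A) * (E / S1)) =
      -Real.log n - Real.log A + Real.log E - Real.log S1 := by
  rw [Real.log_mul (by positivity) (by positivity), Real.log_mul (by positivity) (by positivity),
    Real.log_div hE.ne' hS1.ne', Real.log_div one_ne_zero hn.ne',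
    Real.log_div one_ne_zero hA.ne', Real.log_one]
  ring

private theorem log_scale {t S : ℝ} (ht : 0 < t) (hS : 0 < S) :
    Real.log S = Real.log (t * S) - Real.log t := by
  rw [Real.log_mul ht.ne' hS.ne']; ring

private theorem log_half {t S : ℝ} (ht : 0 < t) (hS : 0 < S) :
    Real.log S = Real.log (t * S / 2) + Real.log 2 - Real.log t := by
  rw [Real.log_div (by positivity) two_ne_zero, Real.log_mul ht.ne' hS.ne']; ring

private theorem log_card {n t K : ℝ} (hn : 0 < n) (hK : 0 < K) (h : t = K / n) :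
    Real.log n = Real.log K - Real.log t := by
  rw [h, Real.log_div hK.ne' hn.ne']; ring

private theorem sum_split {α : Type} (S : Finset α) (c : ℝ) (a b : α → ℝ) :
    ∑ x ∈ S, (c + (a x + b x)) = (S.card : ℝ) * c + (∑ x ∈ S, a x + ∑ x ∈ S, b x) := by
  simp only [sum_add_distrib, sum_const, nsmul_eq_mul]

lemma ZK_pos (hk : 11 ≤ k) {K : V → V → ℝ} (hK : ∀ a b, 0 ≤ K a b)
    {x : ZMod k → V} (hx : x ∈ Cyc G k) (hpos : 0 < K (x 0) (x 2)) : 0 < ZK G k K x := by
  have : Nonempty V := ⟨x 0⟩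
  exact mul_pos kap_pos (lt_of_lt_of_le hpos (single_le_sum (f := fun z => K (x 0) z)
      (fun z _ => hK _ _) (bas_mem_nb.2 (adj12 hk hx))))

/-- pointwise form of the Gibbs inequality -/
theorem gibbs_pointwise (hk : 11 ≤ k)
    (tf : ∀ a b c : V, G.Adj a b → G.Adj b c → ¬ G.Adj a c) {K : V → V → ℝ}
    (hK : ∀ a b, 0 ≤ K a b) {x : ZMod k → V} (hx : x ∈ Cyc G k) (hpos : 0 < K (x 0) (x 2)) :
    0 < qK G k K x ∧ -Real.log (qK G k K x) + Real.log ((cyl G k 2 x).card : ℝ) =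
      (Real.log (2 * (k : ℝ)) - (k : ℝ) * Real.log (kap V k)) +
      (Real.log (dg G k (x 1) / 2) + Real.log (ZK G k K x) - Real.log (K (x 0) (x 2)) +
        Real.log (mu k (T G k (-1) x)) +
        ∑ l ∈ Icc 2 (k - 3), -Real.log (pr G k l x (x ((l + 1 : ℕ) : ZMod k)) / kap V k)) := by
  have : Nonempty V := ⟨x 0⟩
  have hk5 : 5 ≤ k := by omega
  have hkap : 0 < kap V k := kap_pos
  have hk0 : (0 : ℝ) < (k : ℝ) := by exact_mod_cast (by omega : 0 < k)
  have hn : (0 : ℝ) < (Fintype.card V : ℝ) := by exact_mod_cast Fintype.card_pos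
  have hA : (0 : ℝ) < ((nb G (x 1)).card : ℝ) := by
    have : x 0 ∈ nb G (x 1) := bas_mem_nb.2 (adj10 hk hx)
    exact_mod_cast card_pos.2 ⟨_, this⟩
  have hS1 : 0 < ∑ z ∈ nb G (x 1), K (x 0) z :=
    lt_of_lt_of_le hpos (single_le_sum (f := fun z => K (x 0) z)
      (fun z _ => hK _ _) (bas_mem_nb.2 (adj12 hk hx)))
  have hTn : (T G k (-1) x).Nonempty := ⟨x (-1), self_mem_T hk5 hx (-1)⟩
  have hT : (0 : ℝ) < ((T G k (-1) x).card : ℝ) := Nat.cast_pos.2 (card_pos.2 hTn)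
  have hqpos : 0 < qK G k K x := mul_pos (mul_pos (one_div_pos.2 hn) (one_div_pos.2 hA))
    (div_pos hpos hS1)
  refine ⟨hqpos, ?_⟩
  have hlogq := log_aux hn hA hpos hS1
  have e1 := log_card hn hk0 (rfl : kap V k = (k : ℝ) / (Fintype.card V : ℝ))
  have e2 := log_half hkap hA
  have e3 := log_scale hkap hS1
  have e6 := log_scale hkap hT
  have e7 : ∑ l ∈ Icc 2 (k - 3), -Real.log (pr G k l x (x ((l + 1 : ℕ) : ZMod k))) =
      ∑ l ∈ Icc 2 (k - 3), -Real.log (pr G k l x (x ((l + 1 : ℕ) : ZMod k)) / kap V k) -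
        ((k : ℝ) - 4) * Real.log (kap V k) := by
    have hcard : ((Icc 2 (k - 3)).card : ℝ) = (k : ℝ) - 4 := by
      rw [Nat.card_Icc]
      have : k - 3 + 1 - 2 = k - 4 := by omega
      rw [this, Nat.cast_sub (by omega)]
      norm_num
    rw [← hcard, ← nsmul_eq_mul, ← sum_const, ← sum_sub_distrib]
    refine sum_congr rfl (fun l _ => ?_)
    rw [Real.log_div (pr_pos hx l).ne' hkap.ne']
    ring
  have hcyl := log_card_cyl hk tf hx
  have i5 : Real.log (2 * (k : ℝ)) = Real.log 2 + Real.log (k : ℝ) :=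
    Real.log_mul two_ne_zero hk0.ne'
  have hdg : kap V k * ((nb G (x 1)).card : ℝ) / 2 = dg G k (x 1) / 2 := rfl
  have hZ : kap V k * ∑ z ∈ nb G (x 1), K (x 0) z = ZK G k K x := rfl
  have hmT : kap V k * ((T G k (-1) x).card : ℝ) = mu k (T G k (-1) x) := rfl
  rw [hdg] at e2
  rw [hZ] at e3
  rw [hmT] at e6
  have hq' : Real.log (qK G k K x) = _ := hlogq
  rw [hq', hcyl, e7]
  linarith

/-- the Gibbs inequality -/
theorem gibbs (hk : 11 ≤ k) (tf : ∀ a b c : V, G.Adj a b → G.Adj b c → ¬ G.Adj a c)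
    {K : V → V → ℝ} (hK : ∀ a b, 0 ≤ K a b) (hpos : ∀ x ∈ Cyc G k, 0 < K (x 0) (x 2))
    (hne : (Cyc G k).Nonempty) :
    NN G k * Real.log (NN G k * kap V k ^ k / (2 * (k : ℝ))) ≤
      ∑ x ∈ Cyc G k, (Real.log (dg G k (x 1) / 2) + Real.log (ZK G k K x) -
        Real.log (K (x 0) (x 2)) + Real.log (mu k (T G k (-1) x))) +
      ∑ l ∈ Icc 2 (k - 3), ∑ x ∈ Cyc G k, ((mu k (F G k l x) - 1) - JJ (mu k (F G k l x))) := by
  obtain ⟨x0, hx0⟩ := hne
  have : Nonempty V := ⟨x0 0⟩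
  have hk5 : 5 ≤ k := by omega
  have hkap : 0 < kap V k := kap_pos
  have hk0 : (0 : ℝ) < (k : ℝ) := by exact_mod_cast (by omega : 0 < k)
  have hN : 0 < NN G k := by
    unfold NN
    exact_mod_cast card_pos.2 ⟨x0, hx0⟩
  have hNdef : NN G k = ∑ _x ∈ Cyc G k, (1 : ℝ) := by
    unfold NN; rw [sum_const, nsmul_eq_mul, mul_one]
  have hg : NN G k * Real.log (NN G k) ≤
      ∑ x ∈ Cyc G k, (-Real.log (qK G k K x) + Real.log ((cyl G k 2 x).card : ℝ)) := by
    have hsub := sub_prob (G := G) (k := k) hk hK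
    have h1 : ∀ x ∈ Cyc G k, Real.log (NN G k) - (-Real.log (qK G k K x) +
        Real.log ((cyl G k 2 x).card : ℝ)) ≤
          NN G k * (qK G k K x / ((cyl G k 2 x).card : ℝ)) - 1 := by
      intro x hx
      have hq := (gibbs_pointwise hk tf hK hx (hpos x hx)).1
      have hc : (0 : ℝ) < ((cyl G k 2 x).card : ℝ) := by
        exact_mod_cast card_pos.2 ⟨x, self_mem_cyl hx 2⟩
      have h2 : Real.log (NN G k * (qK G k K x / ((cyl G k 2 x).card : ℝ))) ≤
          NN G k * (qK G k K x / ((cyl G k 2 x).card : ℝ)) - 1 :=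
        Real.log_le_sub_one_of_pos (by positivity)
      rw [Real.log_mul hN.ne' (by positivity), Real.log_div hq.ne' hc.ne'] at h2
      linarith
    have h3 := sum_le_sum h1
    rw [sum_sub_distrib, sum_sub_distrib, ← mul_sum] at h3
    have h4 : NN G k * ∑ x ∈ Cyc G k, qK G k K x / ((cyl G k 2 x).card : ℝ) ≤ NN G k := by
      have := mul_le_mul_of_nonneg_left hsub hN.le
      rwa [mul_one] at this
    rw [sum_const, nsmul_eq_mul] at h3
    have h5 : ((Cyc G k).card : ℝ) = NN G k := rfl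
    rw [h5, ← hNdef] at h3
    linarith
  have hp := sum_congr (rfl : Cyc G k = Cyc G k)
    (fun x hx => (gibbs_pointwise (G := G) (k := k) (x := x) hk tf hK hx (hpos x hx)).2)
  rw [sum_split (Cyc G k) (Real.log (2 * (k : ℝ)) - (k : ℝ) * Real.log (kap V k))
    (fun x => Real.log (dg G k (x 1) / 2) + Real.log (ZK G k K x) -
        Real.log (K (x 0) (x 2)) + Real.log (mu k (T G k (-1) x)))
    (fun x => ∑ l ∈ Icc 2 (k - 3),
      -Real.log (pr G k l x (x ((l + 1 : ℕ) : ZMod k)) / kap V k))] at hp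
  have hent : ∑ x ∈ Cyc G k, ∑ l ∈ Icc 2 (k - 3),
      -Real.log (pr G k l x (x ((l + 1 : ℕ) : ZMod k)) / kap V k) ≤
      ∑ l ∈ Icc 2 (k - 3), ∑ x ∈ Cyc G k, ((mu k (F G k l x) - 1) - JJ (mu k (F G k l x))) := by
    rw [sum_comm]
    refine sum_le_sum (fun l hl => ?_)
    rw [mem_Icc] at hl
    have h1 := cc_eq (G := G) (k := k) hk5 (l := l) (by omega)
    have h2 := cc_ge_JJ (G := G) (k := k) hk5 (l := l) (by omega)
    rw [sum_sub_distrib, sum_sub_distrib, ← hNdef]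
    have h3 : ∑ x ∈ Cyc G k, -Real.log (pr G k l x (x ((l + 1 : ℕ) : ZMod k)) / kap V k) =
      Hn G k l := rfl
    have h4 : ∑ x ∈ Cyc G k, mu k (F G k l x) = Fm G k l := rfl
    rw [h3, h4]
    linarith
  have hlog : Real.log (NN G k * kap V k ^ k / (2 * (k : ℝ))) =
      Real.log (NN G k) + (k : ℝ) * Real.log (kap V k) - Real.log (2 * (k : ℝ)) := by
    rw [Real.log_div (by positivity) (by positivity), Real.log_mul hN.ne' (by positivity),
      Real.log_pow]
  rw [hlog]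
  have h5 : ((Cyc G k).card : ℝ) = NN G k := rfl
  rw [h5] at hp
  have hp' := hg.trans hp.le
  linarith

end Pool.Agent.ICycU
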