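import Pool.Agent.Lib.MP_131fce_co.U.Types

/-!
# Integer version of the entropy bound: the sizes of all candidate sets are natural numbers
-/

set_option autoImplicit false

namespace Pool.Agent.ICycU

open Finset Pool.Agent.ICycK
open scoped Classical

variable {V : Type} [Fintype V] {G : SimpleGraph V} {k : ℕ} [NeZero k]

lemma chord (f : ℕ → ℝ) (c : ℝ) (a M : ℕ) (hup : ∀ j, M ≤ j → f (j + 1) - f j ≤ c)
    (hdn : ∀ j, a ≤ j → j < M → c ≤ f (j + 1) - f j) (j : ℕ) (hj : a ≤ j) :
    f j ≤ f M + ((j : ℝ) - M) * c := by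
  rcases Nat.le_total M j with h | h
  · obtain ⟨i, rfl⟩ := Nat.exists_eq_add_of_le h
    clear h hj
    induction i with
    | zero => simp
    | succ i ih =>
      have := hup (M + i) (by omega)
      push_cast at ih ⊢
      have e : M + (i + 1) = M + i + 1 := by ring
      rw [e]
      linarith
  · obtain ⟨i, hi⟩ := Nat.exists_eq_add_of_le h
    induction i generalizing j with
    | zero =>
      have : j = M := by omega
      subst this
      simp
    | succ i ih =>
      have h1 := ih (j + 1) (by omega) (by omega) (by omega)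
      have h2 := hdn j hj (by omega)
      push_cast at h1
      linarith

/-- `log ((m + 1) / m)` -/
noncomputable def lam (m : ℕ) : ℝ := Real.log (((m : ℝ) + 1) / m)

lemma lam_nonneg {m : ℕ} (hm : 1 ≤ m) : 0 ≤ lam m := by
  have h : (1 : ℝ) ≤ m := by exact_mod_cast hm
  refine Real.log_nonneg ?_
  rw [le_div_iff₀ (by linarith)]
  linarith

lemma log_nat_le {m : ℕ} (hm : 1 ≤ m) (j : ℕ) (hj : 1 ≤ j) :
    Real.log j ≤ Real.log m + ((j : ℝ) - m) * lam m := by
  have hm0 : (1 : ℝ) ≤ m := by exact_mod_cast hm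
  refine chord (fun j : ℕ => Real.log (j : ℝ)) (lam m) 1 m ?_ ?_ j hj
  · intro i hi
    have hi0 : (m : ℝ) ≤ i := by exact_mod_cast hi
    have hi3 : (0 : ℝ) < i := by linarith
    show Real.log ((i + 1 : ℕ) : ℝ) - Real.log (i : ℝ) ≤ lam m
    rw [← Real.log_div (by positivity) (by positivity)]
    unfold lam
    refine Real.log_le_log (by positivity) ?_
    push_cast
    rw [div_le_div_iff₀ (by linarith) (by linarith)]
    nlinarith
  · intro i hi1 hi
    have hi0 : (i : ℝ) + 1 ≤ m := by exact_mod_cast hi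
    have hi2 : (1 : ℝ) ≤ i := by exact_mod_cast hi1
    show lam m ≤ Real.log ((i + 1 : ℕ) : ℝ) - Real.log (i : ℝ)
    rw [← Real.log_div (by positivity) (by positivity)]
    unfold lam
    refine Real.log_le_log (by positivity) ?_
    push_cast
    rw [div_le_div_iff₀ (by linarith) (by linarith)]
    nlinarith

/-- linear bound for `log d + log (d - 1)`, slope `log ((M + 1) / (M - 1))` -/
lemma log_pair_le {M : ℕ} (hM : 2 ≤ M) (d : ℕ) (hd : 2 ≤ d) :
    Real.log d + Real.log ((d : ℝ) - 1) ≤ Real.log M + Real.log ((M : ℝ) - 1) +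
      ((d : ℝ) - M) * Real.log (((M : ℝ) + 1) / (M - 1)) := by
  have hm0 : (2 : ℝ) ≤ M := by exact_mod_cast hM
  refine chord (fun j : ℕ => Real.log (j : ℝ) + Real.log ((j : ℝ) - 1))
    (Real.log (((M : ℝ) + 1) / (M - 1))) 2 M ?_ ?_ d hd
  · intro i hi
    have hi0 : (M : ℝ) ≤ i := by exact_mod_cast hi
    show Real.log ((i + 1 : ℕ) : ℝ) + Real.log (((i + 1 : ℕ) : ℝ) - 1) -
      (Real.log (i : ℝ) + Real.log ((i : ℝ) - 1)) ≤ _
    have e : (((i + 1 : ℕ) : ℝ) - 1) = (i : ℝ) := by push_cast; ring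
    rw [e]
    have e2 : Real.log ((i + 1 : ℕ) : ℝ) + Real.log (i : ℝ) -
      (Real.log (i : ℝ) + Real.log ((i : ℝ) - 1)) =
      Real.log ((i + 1 : ℕ) : ℝ) - Real.log ((i : ℝ) - 1) := by ring
    rw [e2, ← Real.log_div (by positivity) (by linarith)]
    refine Real.log_le_log (div_pos (by positivity) (by linarith)) ?_
    push_cast
    rw [div_le_div_iff₀ (by linarith) (by linarith)]
    nlinarith
  · intro i hi1 hi
    have hi0 : (i : ℝ) + 1 ≤ M := by exact_mod_cast hi
    have hi2 : (2 : ℝ) ≤ i := by exact_mod_cast hi1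
    show _ ≤ Real.log ((i + 1 : ℕ) : ℝ) + Real.log (((i + 1 : ℕ) : ℝ) - 1) -
      (Real.log (i : ℝ) + Real.log ((i : ℝ) - 1))
    have e : (((i + 1 : ℕ) : ℝ) - 1) = (i : ℝ) := by push_cast; ring
    rw [e]
    have e2 : Real.log ((i + 1 : ℕ) : ℝ) + Real.log (i : ℝ) -
      (Real.log (i : ℝ) + Real.log ((i : ℝ) - 1)) =
      Real.log ((i + 1 : ℕ) : ℝ) - Real.log ((i : ℝ) - 1) := by ring
    rw [e2, ← Real.log_div (by positivity) (by linarith)]
    refine Real.log_le_log (div_pos (by linarith) (by linarith)) ?_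
    push_cast
    rw [div_le_div_iff₀ (by linarith) (by linarith)]
    nlinarith

/-- every vertex is counted at most with weight `2 σ + (k - 3) L` -/
lemma type_le (hk : 11 ≤ k) (tf : ∀ a b c : V, G.Adj a b → G.Adj b c → ¬ G.Adj a c)
    {s L : ℝ} (hs : 0 ≤ s) (hL : 0 ≤ L) (hsL : s ≤ 2 * L)
    {x : ZMod k → V} (hx : x ∈ Cyc G k) (w : V) :
    s * ((Ty G k x w).card : ℝ) + L * (∑ j : ZMod k, if w ∈ T G k j x then (1 : ℝ) else 0) +
      L * cnt G k x w ≤ 2 * s + ((k : ℝ) - 3) * L := by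
  have hkR : (11 : ℝ) ≤ (k : ℝ) := by exact_mod_cast hk
  by_cases hT : isT k (Ty G k x w)
  · obtain ⟨j, hj⟩ := id hT
    have hc : (Ty G k x w).card = 2 := by rw [hj]; exact pair_card hk j
    have h1 := sum_T_boole (G := G) hk hj
    have h2 := cnt_two (G := G) tf hx w
    rw [hc] at h2
    rw [h1, hc]
    push_cast at h2 ⊢
    nlinarith
  · have h1 : (∑ j : ZMod k, if w ∈ T G k j x then (1 : ℝ) else 0) = 0 := by
      apply Finset.sum_eq_zero
      intro i _
      rw [if_neg]
      intro hw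
      exact hT ⟨i, bas_mem_T.1 hw⟩
    rw [h1]
    rcases Nat.lt_or_ge (Ty G k x w).card 2 with hc | hc
    · interval_cases hcc : (Ty G k x w).card
      · have h2 := ic15_cnt_zero (G := G) hcc
        rw [h2]
        push_cast
        nlinarith
      · have h2 := cnt_one (G := G) hk hcc
        push_cast
        nlinarith
    · have h2 := cnt_two (G := G) tf hx w
      have hcR : (2 : ℝ) ≤ ((Ty G k x w).card : ℝ) := by exact_mod_cast hc
      have h3 := mul_le_mul_of_nonneg_left h2 hL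
      nlinarith [mul_nonneg (sub_nonneg.2 hcR) (sub_nonneg.2 hsL)]

end Pool.Agent.ICycU
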