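import Pool.Agent.Lib.MP_131fce_co.U.Integer

/-!
# The integer entropy bound (`k ≥ 11`)
-/

set_option autoImplicit false

namespace Pool.Agent.ICycU

open Finset Pool.Agent.ICycK
open scoped Classical

variable {V : Type} [Fintype V] {G : SimpleGraph V} {k : ℕ} [NeZero k]

/-- kernel that only forbids `x 2 = x 0` -/
noncomputable def KN (u z : V) : ℝ := if z = u then 0 else 1

omit [Fintype V] in
lemma KN_nonneg (u z : V) : 0 ≤ KN u z := by
  unfold KN; split_ifs <;> norm_num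

lemma x2_ne (hk : 11 ≤ k) {x : ZMod k → V} (hx : x ∈ Cyc G k) : x 2 ≠ x 0 := by
  intro h
  have := isCyc_injective (G := G) (by omega : 5 ≤ k) hx h
  exact two_ne hk this

lemma ZN_eq (hk : 11 ≤ k) {x : ZMod k → V} (hx : x ∈ Cyc G k) :
    ZK G k KN x = kap V k * (((nb G (x 1)).card : ℝ) - 1) := by
  unfold ZK KN
  congr 1
  have m0 : x 0 ∈ nb G (x 1) := bas_mem_nb.2 (adj10 hk hx)
  rw [← Finset.add_sum_erase _ _ m0, if_pos rfl, zero_add]
  have h : ∀ z ∈ (nb G (x 1)).erase (x 0), (if z = x 0 then (0 : ℝ) else 1) = 1 := by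
    intro z hz
    rw [if_neg (Finset.ne_of_mem_erase hz)]
  rw [sum_congr rfl h, sum_const, nsmul_eq_mul, mul_one, card_erase_of_mem m0, Nat.cast_sub]
  · norm_num
  · exact card_pos.2 ⟨_, m0⟩

lemma two_le_card (hk : 11 ≤ k) {x : ZMod k → V} (hx : x ∈ Cyc G k) :
    2 ≤ (nb G (x 1)).card := by
  have m0 : x 0 ∈ nb G (x 1) := bas_mem_nb.2 (adj10 hk hx)
  have m2 : x 2 ∈ nb G (x 1) := bas_mem_nb.2 (adj12 hk hx)
  have hsub : ({x 0, x 2} : Finset V) ⊆ nb G (x 1) := by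
    intro v hv
    rw [mem_insert, mem_singleton] at hv
    rcases hv with rfl | rfl
    · exact m0
    · exact m2
  have := card_le_card hsub
  rwa [card_pair (x2_ne hk hx).symm] at this

theorem int_bound (hk : 11 ≤ k) (tf : ∀ a b c : V, G.Adj a b → G.Adj b c → ¬ G.Adj a c)
    (hne : (Cyc G k).Nonempty) {s L cd cm : ℝ} (hs : 0 ≤ s) (hL : 0 ≤ L) (hsL : s ≤ 2 * L)
    (hd : ∀ d : ℕ, 2 ≤ d → Real.log d + Real.log ((d : ℝ) - 1) ≤ cd + s * d)
    (hl : ∀ j : ℕ, 1 ≤ j → Real.log j ≤ cm + L * j) :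
    Real.log (NN G k / (2 * (k : ℝ))) ≤ -Real.log (kap V k) - Real.log 2 + cd +
      ((k : ℝ) - 3) * cm + (2 * s + ((k : ℝ) - 3) * L) / kap V k := by
  obtain ⟨x0, hx0⟩ := id hne
  have : Nonempty V := ⟨x0 0⟩
  have hk5 : 5 ≤ k := by omega
  have hk0 : (0 : ℝ) < (k : ℝ) := by exact_mod_cast (by omega : 0 < k)
  have hκ : 0 < kap V k := kap_pos
  have hN : 0 < NN G k := by
    unfold NN
    exact_mod_cast card_pos.2 ⟨x0, hx0⟩
  have hNN : ∑ _x ∈ Cyc G k, (1 : ℝ) = NN G k := by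
    unfold NN; rw [sum_const, nsmul_eq_mul, mul_one]
  have hconst : ∀ c : ℝ, ∑ _x ∈ Cyc G k, c = NN G k * c := by
    intro c; unfold NN; rw [sum_const, nsmul_eq_mul]
  have h := gibbs (G := G) (k := k) hk tf (K := KN) KN_nonneg
    (fun x hx => by unfold KN; rw [if_neg (x2_ne hk hx)]; exact one_pos) hne
  have h1 : ∑ x ∈ Cyc G k, (Real.log (dg G k (x 1) / 2) + Real.log (ZK G k KN x) -
        Real.log (KN (x 0) (x 2)) + Real.log (mu k (T G k (-1) x))) ≤
      ∑ x ∈ Cyc G k, ((3 * Real.log (kap V k) - Real.log 2 + cd + cm) +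
        (2 * s / kap V k * (dg G k (x 1) / 2) + L / kap V k * mu k (T G k (-1) x))) := by
    refine sum_le_sum fun x hx => ?_
    have g1 := two_le_card hk hx
    have g2 : (2 : ℝ) ≤ ((nb G (x 1)).card : ℝ) := by exact_mod_cast g1
    have g3 := hd _ g1
    have g4 : 1 ≤ (T G k (-1) x).card := card_pos.2 ⟨x (-1), self_mem_T hk5 hx (-1)⟩
    have g4' : (1 : ℝ) ≤ ((T G k (-1) x).card : ℝ) := by exact_mod_cast g4
    have g5 := hl _ g4
    have e1 : Real.log (dg G k (x 1) / 2) =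
        Real.log (kap V k) + Real.log ((nb G (x 1)).card : ℝ) - Real.log 2 := by
      unfold dg mu
      rw [Real.log_div (by positivity) two_ne_zero, Real.log_mul hκ.ne' (by positivity)]
    have e2 : Real.log (ZK G k KN x) =
        Real.log (kap V k) + Real.log (((nb G (x 1)).card : ℝ) - 1) := by
      rw [ZN_eq hk hx, Real.log_mul hκ.ne' (by linarith)]
    have e3 : Real.log (KN (x 0) (x 2)) = 0 := by
      unfold KN; rw [if_neg (x2_ne hk hx), Real.log_one]
    have e4 : Real.log (mu k (T G k (-1) x)) =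
        Real.log (kap V k) + Real.log ((T G k (-1) x).card : ℝ) := by
      unfold mu
      rw [Real.log_mul hκ.ne' (by positivity)]
    have e5 : 2 * s / kap V k * (dg G k (x 1) / 2) = s * ((nb G (x 1)).card : ℝ) := by
      unfold dg mu
      field_simp
    have e6 : L / kap V k * mu k (T G k (-1) x) = L * ((T G k (-1) x).card : ℝ) := by
      unfold mu
      field_simp
    rw [e1, e2, e3, e4, e5, e6]
    linarith
  have h2 : ∑ l ∈ Icc 2 (k - 3), ∑ x ∈ Cyc G k,
      ((mu k (F G k l x) - 1) - JJ (mu k (F G k l x))) ≤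
      ∑ l ∈ Icc 2 (k - 3), ∑ x ∈ Cyc G k, ((Real.log (kap V k) + cm) +
        L / kap V k * mu k (F G k l x)) := by
    refine sum_le_sum fun l hl' => sum_le_sum fun x hx => ?_
    rw [mem_Icc] at hl'
    have g4 : 1 ≤ (F G k l x).card := card_pos.2 ⟨_, mem_F_succ hk5 hx (by omega)⟩
    have g4' : (1 : ℝ) ≤ ((F G k l x).card : ℝ) := by exact_mod_cast g4
    have g5 := hl _ g4
    have e4 : Real.log (mu k (F G k l x)) =
        Real.log (kap V k) + Real.log ((F G k l x).card : ℝ) := by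
      unfold mu
      rw [Real.log_mul hκ.ne' (by positivity)]
    have e5 : (mu k (F G k l x) - 1) - JJ (mu k (F G k l x)) = Real.log (mu k (F G k l x)) := by
      unfold JJ; ring
    have e6 : L / kap V k * mu k (F G k l x) = L * ((F G k l x).card : ℝ) := by
      unfold mu
      field_simp
    rw [e5, e4, e6]
    linarith
  have hA1 := sumcoef_dg (G := G) (k := k)
  have hA2 := sumcoef_F (G := G) (k := k)
  have hA3 := sumcoef_T (G := G) (k := k)
  have hcard : ((Icc 2 (k - 3)).card : ℝ) = (k : ℝ) - 4 := by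
    rw [Nat.card_Icc]
    have : k - 3 + 1 - 2 = k - 4 := by omega
    rw [this, Nat.cast_sub (by omega)]
    norm_num
  have e1 : ∑ x ∈ Cyc G k, ((3 * Real.log (kap V k) - Real.log 2 + cd + cm) +
        (2 * s / kap V k * (dg G k (x 1) / 2) + L / kap V k * mu k (T G k (-1) x))) =
      NN G k * (3 * Real.log (kap V k) - Real.log 2 + cd + cm) +
        (2 * s / kap V k * ∑ x ∈ Cyc G k, dg G k (x 1) / 2 +
          L / kap V k * ∑ x ∈ Cyc G k, mu k (T G k (-1) x)) := by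
    rw [sum_add_distrib, hconst, sum_add_distrib, ← mul_sum, ← mul_sum]
  have e2 : ∑ l ∈ Icc 2 (k - 3), ∑ x ∈ Cyc G k, ((Real.log (kap V k) + cm) +
        L / kap V k * mu k (F G k l x)) =
      ((k : ℝ) - 4) * (NN G k * (Real.log (kap V k) + cm)) +
        L / kap V k * ∑ x ∈ Cyc G k, ∑ l ∈ Icc 2 (k - 3), mu k (F G k l x) := by
    have g : ∀ l ∈ Icc 2 (k - 3), ∑ x ∈ Cyc G k, ((Real.log (kap V k) + cm) +
        L / kap V k * mu k (F G k l x)) = NN G k * (Real.log (kap V k) + cm) +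
        L / kap V k * ∑ x ∈ Cyc G k, mu k (F G k l x) := by
      intro l _
      rw [sum_add_distrib, hconst, ← mul_sum]
    rw [sum_congr rfl g, sum_add_distrib, sum_const, nsmul_eq_mul, hcard, ← mul_sum, sum_comm]
  rw [e1] at h1
  rw [e2] at h2
  -- the types
  have hty : ∑ x ∈ Cyc G k, ∑ w : V, kap V k * (s * ((Ty G k x w).card : ℝ) +
      L * (∑ j : ZMod k, if w ∈ T G k j x then (1 : ℝ) else 0) + L * cnt G k x w) ≤
      ∑ x ∈ Cyc G k, ∑ _w : V, kap V k * (2 * s + ((k : ℝ) - 3) * L) :=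
    sum_le_sum fun x hx => sum_le_sum fun w _ =>
      mul_le_mul_of_nonneg_left (type_le hk tf hs hL hsL hx w) hκ.le
  have hkc : ∀ c : ℝ, ∑ _w : V, kap V k * c = (k : ℝ) * c := by
    intro c; rw [← sum_mul, sum_kap]
  have hexp : ∑ x ∈ Cyc G k, ∑ w : V, kap V k * (s * ((Ty G k x w).card : ℝ) +
      L * (∑ j : ZMod k, if w ∈ T G k j x then (1 : ℝ) else 0) + L * cnt G k x w) =
      2 * s * (∑ x ∈ Cyc G k, ∑ w : V, kap V k * (((Ty G k x w).card : ℝ) / 2)) +
      L * (∑ x ∈ Cyc G k, ∑ w : V,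
          kap V k * (∑ j : ZMod k, if w ∈ T G k j x then (1 : ℝ) else 0)) +
      L * ∑ x ∈ Cyc G k, ∑ w : V, kap V k * cnt G k x w := by
    simp only [mul_sum, ← sum_add_distrib]
    refine sum_congr rfl fun x _ => sum_congr rfl fun w _ => ?_
    simp only [mul_add, mul_sum]
    ring_nf
  rw [hexp, ← hA1, ← hA2, ← hA3] at hty
  simp only [hkc] at hty
  rw [hconst] at hty
  have hty2 : 2 * s * ∑ x ∈ Cyc G k, dg G k (x 1) / 2 +
      L * ∑ x ∈ Cyc G k, mu k (T G k (-1) x) +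
      L * ∑ x ∈ Cyc G k, ∑ l ∈ Icc 2 (k - 3), mu k (F G k l x) ≤
      NN G k * (2 * s + ((k : ℝ) - 3) * L) := by
    have g : (k : ℝ) * (2 * s * ∑ x ∈ Cyc G k, dg G k (x 1) / 2 +
      L * ∑ x ∈ Cyc G k, mu k (T G k (-1) x) +
      L * ∑ x ∈ Cyc G k, ∑ l ∈ Icc 2 (k - 3), mu k (F G k l x)) ≤
      (k : ℝ) * (NN G k * (2 * s + ((k : ℝ) - 3) * L)) := by
      linarith
    exact le_of_mul_le_mul_left g hk0
  have hty3 := div_le_div_of_nonneg_right hty2 hκ.le
  have e3 : (2 * s * ∑ x ∈ Cyc G k, dg G k (x 1) / 2 +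
      L * ∑ x ∈ Cyc G k, mu k (T G k (-1) x) +
      L * ∑ x ∈ Cyc G k, ∑ l ∈ Icc 2 (k - 3), mu k (F G k l x)) / kap V k =
      2 * s / kap V k * ∑ x ∈ Cyc G k, dg G k (x 1) / 2 +
      L / kap V k * ∑ x ∈ Cyc G k, mu k (T G k (-1) x) +
      L / kap V k * ∑ x ∈ Cyc G k, ∑ l ∈ Icc 2 (k - 3), mu k (F G k l x) := by
    field_simp
  rw [e3] at hty3
  have hlog : Real.log (NN G k * kap V k ^ k / (2 * (k : ℝ))) =
      Real.log (NN G k / (2 * (k : ℝ))) + (k : ℝ) * Real.log (kap V k) := by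
    have e : NN G k * kap V k ^ k / (2 * (k : ℝ)) = NN G k / (2 * (k : ℝ)) * kap V k ^ k := by
      ring
    rw [e, Real.log_mul (by positivity) (by positivity), Real.log_pow]
  rw [hlog] at h
  have hfin : NN G k * Real.log (NN G k / (2 * (k : ℝ))) ≤ NN G k * (-Real.log (kap V k) -
      Real.log 2 + cd + ((k : ℝ) - 3) * cm + (2 * s + ((k : ℝ) - 3) * L) / kap V k) := by
    have e4 : NN G k * (2 * s + ((k : ℝ) - 3) * L) / kap V k =
      NN G k * ((2 * s + ((k : ℝ) - 3) * L) / kap V k) := by ring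
    rw [e4] at hty3
    linarith
  exact le_of_mul_le_mul_left hfin hN

end Pool.Agent.ICycU
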