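import Pool.Agent.Lib.MP_131fce_co.K.SumCoef
import Pool.Agent.Lib.MP_131fce_co.U.Gibbs

/-!
# The kernel `KK` and the two entropy inequalities (`k ≥ 11`)
-/

set_option autoImplicit false

namespace Pool.Agent.ICycU

open Finset Pool.Agent.ICycK
open scoped Classical

variable {V : Type} [Fintype V] {G : SimpleGraph V} {k : ℕ} [NeZero k]

/-- mass of `N(z) \ N(u)` -/
noncomputable def aK (G : SimpleGraph V) (k : ℕ) (u z : V) : ℝ :=
  mu k ((nb G z).filter (fun y => ¬ G.Adj u y))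

/-- the kernel -/
noncomputable def KK (G : SimpleGraph V) (k : ℕ) (u z : V) : ℝ :=
  (min 1 (aK G k u z)) ^ 7 * Real.exp (7 * (1 - min 1 (aK G k u z)))

/-- `sup a ^ 6 * exp (7 * (1 - a))` -/
noncomputable def rh : ℝ := (6 / 7) ^ 6 * Real.exp 1

lemma aK_nonneg (u z : V) : 0 ≤ aK G k u z := mu_nonneg _

lemma KK_nonneg (u z : V) : 0 ≤ KK G k u z :=
  mul_nonneg (pow_nonneg (le_min zero_le_one (aK_nonneg u z)) 7) (Real.exp_pos _).le

lemma pow_exp_le {b : ℝ} (hb : 0 ≤ b) : b ^ 6 * Real.exp (7 * (1 - b)) ≤ rh := by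
  have h1 : 7 * b / 6 ≤ Real.exp (7 * b / 6 - 1) := by
    have := Real.add_one_le_exp (7 * b / 6 - 1)
    linarith
  have h2 : (7 * b / 6) ^ 6 ≤ Real.exp (7 * b / 6 - 1) ^ 6 :=
    pow_le_pow_left₀ (by positivity) h1 6
  rw [← Real.exp_nat_mul] at h2
  have h3 : b ^ 6 = (6 / 7) ^ 6 * (7 * b / 6) ^ 6 := by ring
  unfold rh
  rw [h3, mul_assoc]
  refine mul_le_mul_of_nonneg_left ?_ (by positivity)
  calc (7 * b / 6) ^ 6 * Real.exp (7 * (1 - b))
      ≤ Real.exp (((6 : ℕ) : ℝ) * (7 * b / 6 - 1)) * Real.exp (7 * (1 - b)) :=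
        mul_le_mul_of_nonneg_right h2 (Real.exp_pos _).le
    _ = Real.exp 1 := by
        rw [← Real.exp_add]
        congr 1
        push_cast
        ring

lemma one_le_rh : 1 ≤ rh := by
  have := pow_exp_le (b := 1) zero_le_one
  simpa using this

lemma KK_le_one (u z : V) : KK G k u z ≤ 1 := by
  unfold KK
  set b := min 1 (aK G k u z) with hb
  have hb0 : 0 ≤ b := le_min zero_le_one (aK_nonneg u z)
  have h1 : b * Real.exp (1 - b) ≤ 1 := by
    have h2 : b ≤ Real.exp (b - 1) := by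
      have := Real.add_one_le_exp (b - 1)
      linarith
    calc b * Real.exp (1 - b) ≤ Real.exp (b - 1) * Real.exp (1 - b) :=
          mul_le_mul_of_nonneg_right h2 (Real.exp_pos _).le
      _ = 1 := by rw [← Real.exp_add]; simp
  have h3 : b ^ 7 * Real.exp (7 * (1 - b)) = (b * Real.exp (1 - b)) ^ 7 := by
    rw [mul_pow, ← Real.exp_nat_mul]
    norm_num
  rw [h3]
  exact pow_le_one₀ (mul_nonneg hb0 (Real.exp_pos _).le) h1

lemma KK_le (u z : V) : KK G k u z ≤ rh * aK G k u z := by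
  rcases le_total (aK G k u z) 1 with h | h
  · unfold KK
    rw [min_eq_right h]
    have h1 := pow_exp_le (aK_nonneg (G := G) (k := k) u z)
    have h2 : aK G k u z ^ 7 * Real.exp (7 * (1 - aK G k u z)) =
        (aK G k u z ^ 6 * Real.exp (7 * (1 - aK G k u z))) * aK G k u z := by ring
    rw [h2]
    exact mul_le_mul_of_nonneg_right h1 (aK_nonneg u z)
  · have h1 := KK_le_one (G := G) (k := k) u z
    have h2 := one_le_rh
    nlinarith

/-- the candidates for `x (l + 1)` all lie in `N(x l) \ N(x (l - 2))` -/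
lemma mu_F_le (l : ℕ) (x : ZMod k → V) :
    mu k (F G k (l + 2) x) ≤ aK G k (x ((l : ℕ) : ZMod k)) (x ((l + 2 : ℕ) : ZMod k)) := by
  unfold aK
  apply mu_mono
  intro w hw
  rw [bas_mem_F] at hw
  rw [mem_filter, bas_mem_nb]
  exact ⟨hw.2, hw.1 l (by omega)⟩

lemma JJ_anti {s t : ℝ} (hs : 0 < s) (hst : s ≤ t) (ht : t ≤ 1) : JJ t ≤ JJ s := by
  have ht0 : 0 < t := lt_of_lt_of_le hs hst
  have h1 : Real.log (t / s) ≥ 1 - (t / s)⁻¹ := Real.one_sub_inv_le_log_of_pos (by positivity)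
  rw [Real.log_div ht0.ne' hs.ne', inv_div] at h1
  unfold JJ
  have h2 : t - s ≤ 1 - s / t := by
    have : 1 - s / t = (t - s) / t := by field_simp
    rw [this, le_div_iff₀ ht0]
    nlinarith
  linarith

lemma JJ_min_le {s a : ℝ} (hs : 0 < s) (hsa : s ≤ a) : JJ (min 1 a) ≤ JJ s := by
  have h0 : JJ (1 : ℝ) = 0 := by simp [JJ]
  rcases le_total s 1 with h | h
  · exact JJ_anti hs (le_min h hsa) (min_le_left _ _)
  · rw [min_eq_left (h.trans hsa), h0]
    exact JJ_nonneg hs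

/-- total deficit of one window -/
noncomputable def DD (G : SimpleGraph V) (k : ℕ) [NeZero k] : ℝ :=
  ∑ x ∈ Cyc G k, JJ (min 1 (aK G k (x 0) (x 2)))

lemma aK_pos (hk : 11 ≤ k) {x : ZMod k → V} (hx : x ∈ Cyc G k) :
    0 < aK G k (x 0) (x 2) := by
  have := mu_F_le (G := G) 0 x
  have h2 := mu_F_pos (G := G) (by omega : 5 ≤ k) (l := 2) (by omega) hx
  simp only [Nat.cast_zero, zero_add] at this
  exact_mod_cast lt_of_lt_of_le h2 this

lemma DD_nonneg (hk : 11 ≤ k) : 0 ≤ DD G k :=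
  sum_nonneg fun x hx => JJ_nonneg (lt_min one_pos (aK_pos hk hx))

lemma DD_le (hk : 11 ≤ k) {l : ℕ} (hl : l + 5 ≤ k) :
    DD G k ≤ ∑ x ∈ Cyc G k, JJ (mu k (F G k (l + 2) x)) := by
  unfold DD
  rw [← sum_rot (G := G) (k := k) (l : ZMod k) (fun x => JJ (min 1 (aK G k (x 0) (x 2))))]
  refine sum_le_sum fun x hx => ?_
  have h1 := mu_F_le (G := G) l x
  have h2 := mu_F_pos (G := G) (by omega : 5 ≤ k) (l := l + 2) (by omega) hx
  have e1 : (0 : ZMod k) + (l : ZMod k) = (l : ZMod k) := zero_add _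
  have e2 : (2 : ZMod k) + (l : ZMod k) = ((l + 2 : ℕ) : ZMod k) := by push_cast; ring
  simp only [e1, e2]
  exact JJ_min_le h2 h1

/-- `k - 4 ≥ 7` windows pay for the kernel -/
lemma windows (hk : 11 ≤ k) :
    ∑ l ∈ Icc 2 (k - 3), ∑ x ∈ Cyc G k, ((mu k (F G k l x) - 1) - JJ (mu k (F G k l x))) ≤
      ∑ l ∈ Icc 2 (k - 3), ∑ x ∈ Cyc G k, (mu k (F G k l x) - 1) - 7 * DD G k := by
  have h1 : ∀ l ∈ Icc 2 (k - 3), ∑ x ∈ Cyc G k,
      ((mu k (F G k l x) - 1) - JJ (mu k (F G k l x))) ≤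
      ∑ x ∈ Cyc G k, (mu k (F G k l x) - 1) - DD G k := by
    intro l hl
    rw [mem_Icc] at hl
    obtain ⟨m, rfl⟩ : ∃ m, l = m + 2 := ⟨l - 2, by omega⟩
    rw [sum_sub_distrib]
    have := DD_le (G := G) hk (l := m) (by omega)
    linarith
  refine (sum_le_sum h1).trans ?_
  rw [sum_sub_distrib, sum_const, Nat.card_Icc, nsmul_eq_mul]
  have h2 : ((7 : ℕ) : ℝ) ≤ ((k - 3 + 1 - 2 : ℕ) : ℝ) := by exact_mod_cast (by omega : 7 ≤ k - 3 + 1 - 2)
  have h3 := mul_le_mul_of_nonneg_right h2 (DD_nonneg (G := G) hk)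
  push_cast at h3 ⊢
  linarith

lemma KK_pos (hk : 11 ≤ k) {x : ZMod k → V} (hx : x ∈ Cyc G k) :
    0 < KK G k (x 0) (x 2) :=
  mul_pos (pow_pos (lt_min one_pos (aK_pos hk hx)) 7) (Real.exp_pos _)

lemma log_KK (hk : 11 ≤ k) {x : ZMod k → V} (hx : x ∈ Cyc G k) :
    -Real.log (KK G k (x 0) (x 2)) = 7 * JJ (min 1 (aK G k (x 0) (x 2))) := by
  have h := lt_min one_pos (aK_pos hk hx)
  unfold KK JJ
  rw [Real.log_mul (pow_pos h 7).ne' (Real.exp_pos _).ne', Real.log_pow, Real.log_exp]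
  push_cast
  ring

/-- tangent-line bound: `4 / 3`-type price of the pair `(x 0, x 2)` -/
lemma log_ineq {d tau Z t : ℝ} (hZ : 0 < Z) (htau : 0 < tau) (ht0 : 0 ≤ t)
    (ht1 : t ≤ 1) (hZle : Z ≤ d - (1 - t) * tau) :
    Real.log Z + Real.log tau ≤
      13 / 25 * d + 24 / 25 * tau - 2 - Real.log (481 / 625) + t * Real.log (37 / 24) := by
  have hq : 0 < 37 / 25 - 13 / 25 * t := by linarith
  have h1 : Real.log Z ≤ 13 / 25 * Z - 1 - Real.log (13 / 25) := by
    have := Real.log_le_sub_one_of_pos (show (0 : ℝ) < 13 / 25 * Z by positivity)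
    rw [Real.log_mul (by norm_num) hZ.ne'] at this
    linarith
  have h2 : Real.log tau ≤ (37 / 25 - 13 / 25 * t) * tau - 1 -
      Real.log (37 / 25 - 13 / 25 * t) := by
    have := Real.log_le_sub_one_of_pos (mul_pos hq htau)
    rw [Real.log_mul hq.ne' htau.ne'] at this
    linarith
  have h3 : Real.log (37 / 25) - t * Real.log (37 / 24) ≤
      Real.log (37 / 25 - 13 / 25 * t) := by
    have hc := strictConcaveOn_log_Ioi.concaveOn.2 (x := 37 / 25) (y := 24 / 25)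
      (by norm_num [Set.mem_Ioi]) (by norm_num [Set.mem_Ioi]) (sub_nonneg.2 ht1) ht0
      (by ring : (1 - t) + t = 1)
    simp only [smul_eq_mul] at hc
    have e1 : (1 - t) * (37 / 25 : ℝ) + t * (24 / 25) = 37 / 25 - 13 / 25 * t := by ring
    have e2 : Real.log (24 / 25 : ℝ) = Real.log (37 / 25) - Real.log (37 / 24) := by
      rw [← Real.log_div (by norm_num) (by norm_num)]
      congr 1
      norm_num
    rw [e1, e2] at hc
    linarith
  have h4 : Real.log (481 / 625 : ℝ) = Real.log (13 / 25) + Real.log (37 / 25) := by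
    rw [← Real.log_mul (by norm_num) (by norm_num)]
    congr 1
    norm_num
  nlinarith

end Pool.Agent.ICycU
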