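import Pool.Agent.Lib.MP_131fce_co.U.SmallOrder

/-!
# Orders `n = m k + r` with `r (k - r)` large (`k ≥ 11`)
-/

set_option autoImplicit false

namespace Pool.Agent.ICycU

open Finset Pool.Agent.ICycK
open scoped Classical

variable {V : Type} [Fintype V] {G : SimpleGraph V} {k : ℕ} [NeZero k]

/-- interpolation error of `log` on `[m, m + 1]` -/
lemma interp {m s : ℝ} (hm : 1 ≤ m) (hs0 : 0 ≤ s) (hs1 : s ≤ 1) :
    s * (1 - s) / (2 * (m + 1) ^ 2) ≤
      Real.log (m + s) - Real.log m - s * (Real.log (m + 1) - Real.log m) := by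
  have hx : 0 < m + s := by linarith
  have hm0 : 0 < m := by linarith
  have hA : 2 * s / (2 * m + s) ≤ Real.log (m + s) - Real.log m := by
    have h := log_ge (s := s / m) (by positivity)
    have e1 : 2 * (s / m) / (2 + s / m) = 2 * s / (2 * m + s) := by
      field_simp
    have e2 : Real.log (1 + s / m) = Real.log (m + s) - Real.log m := by
      rw [← Real.log_div hx.ne' hm0.ne']
      congr 1
      field_simp
    rw [e1, e2] at h
    exact h
  have hB : Real.log (m + 1) - Real.log (m + s) ≤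
      (1 - s) * (2 * m + 1 + s) / (2 * (m + s) * (m + 1)) := by
    have h1 : (1 : ℝ) ≤ (m + 1) / (m + s) := by
      rw [le_div_iff₀ hx]
      linarith
    have h := Real.self_le_sinh_iff.2 (Real.log_nonneg h1)
    rw [Real.sinh_log (by positivity), inv_div, Real.log_div (by positivity) hx.ne'] at h
    refine h.trans (le_of_eq ?_)
    field_simp
    ring
  have hC : 0 ≤ 2 / (2 * m + s) - (2 * m + 1 + s) / (2 * (m + s) * (m + 1)) -
      1 / (2 * (m + 1) ^ 2) := by
    have e : 2 / (2 * m + s) - (2 * m + 1 + s) / (2 * (m + s) * (m + 1)) -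
      1 / (2 * (m + 1) ^ 2) = (4 * (m + s) * (m + 1) ^ 2 - (2 * m + 1 + s) * (2 * m + s) * (m + 1)
        - (2 * m + s) * (m + s)) / (2 * (2 * m + s) * (m + s) * (m + 1) ^ 2) := by
      field_simp
      ring
    rw [e]
    refine div_nonneg ?_ (by positivity)
    nlinarith [mul_nonneg hs0 (sub_nonneg.2 hs1), mul_nonneg (mul_nonneg hs0 (sub_nonneg.2 hs1))
      (sub_nonneg.2 hm), mul_nonneg hs0 (sub_nonneg.2 hm)]
  have h1 := mul_le_mul_of_nonneg_left hA (sub_nonneg.2 hs1)
  have h2 := mul_le_mul_of_nonneg_left hB hs0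
  have h3 := mul_nonneg (mul_nonneg hs0 (sub_nonneg.2 hs1)) hC
  have e1 : s * (1 - s) * (2 / (2 * m + s) - (2 * m + 1 + s) / (2 * (m + s) * (m + 1)) -
      1 / (2 * (m + 1) ^ 2)) = (1 - s) * (2 * s / (2 * m + s)) -
      s * ((1 - s) * (2 * m + 1 + s) / (2 * (m + s) * (m + 1))) -
      s * (1 - s) / (2 * (m + 1) ^ 2) := by
    ring
  rw [e1] at h3
  nlinarith

/-- the integer entropy bound with the lines through `m` and `m + 1` -/
theorem line (hk : 11 ≤ k) (tf : ∀ a b c : V, G.Adj a b → G.Adj b c → ¬ G.Adj a c)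
    (hne : (Cyc G k).Nonempty) {m : ℕ} (hm : 1 ≤ m) {s : ℝ} (hs : 1 / kap V k = m + s) :
    Real.log (NN G k / (2 * (k : ℝ))) ≤ -Real.log (kap V k) +
      (Real.log (2 * m + 1) - Real.log (m + 1)) +
      ((k : ℝ) - 1) * (Real.log m + s * (Real.log (m + 1) - Real.log m)) := by
  have hmR : (1 : ℝ) ≤ m := by exact_mod_cast hm
  have hlam : lam m = Real.log (m + 1) - Real.log m := by
    unfold lam
    rw [Real.log_div (by positivity) (by positivity)]
  have hd : ∀ d : ℕ, 2 ≤ d → Real.log d + Real.log ((d : ℝ) - 1) ≤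
      (Real.log (2 * m + 1) + (Real.log 2 + Real.log m) - (2 * m + 1) * lam m) + lam m * d := by
    intro d hd
    have := log_pair_le (show 2 ≤ 2 * m + 1 by omega) d hd
    have e : ((2 * m + 1 : ℕ) : ℝ) = 2 * m + 1 := by push_cast; ring
    rw [e] at this
    have e2 : (2 * (m : ℝ) + 1 + 1) / (2 * m + 1 - 1) = ((m : ℝ) + 1) / m := by
      have : (2 * (m : ℝ) + 1 - 1) = 2 * m := by ring
      rw [this]
      field_simp
      ring
    have e3 : Real.log (2 * (m : ℝ) + 1 - 1) = Real.log 2 + Real.log m := by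
      rw [← Real.log_mul (by norm_num) (by positivity)]
      congr 1
      ring
    rw [e2, e3] at this
    unfold lam
    linarith
  have hl : ∀ j : ℕ, 1 ≤ j → Real.log j ≤ (Real.log m - m * lam m) + lam m * j := by
    intro j hj
    have := log_nat_le hm j hj
    linarith
  have hL := lam_nonneg hm
  have h := int_bound (G := G) hk tf hne hL hL (by linarith) hd hl
  have e : (2 * lam m + ((k : ℝ) - 3) * lam m) / kap V k =
      (2 * lam m + ((k : ℝ) - 3) * lam m) * (m + s) := by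
    rw [← hs]; ring
  rw [e, hlam] at h
  nlinarith

/-- the count for `n = m k + r` with `5 (k - 1) r (k - r) ≥ 7 (m + 1) ^ 2 k ^ 2` -/
theorem NN_le_mid (hk : 11 ≤ k) (tf : ∀ a b c : V, G.Adj a b → G.Adj b c → ¬ G.Adj a c)
    (hne : (Cyc G k).Nonempty) {m r : ℕ} (hm : 1 ≤ m) (hr : r ≤ k)
    (hn : Fintype.card V = m * k + r)
    (hc : 7 * (m + 1) ^ 2 * k ^ 2 ≤ 5 * (k - 1) * (r * (k - r))) :
    NN G k ≤ 2 * (k : ℝ) * ((Fintype.card V : ℝ) / (k : ℝ)) ^ k := by
  obtain ⟨x0, hx0⟩ := id hne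
  have hV : Nonempty V := ⟨x0 0⟩
  have hkR : (11 : ℝ) ≤ (k : ℝ) := by exact_mod_cast hk
  have hk0 : (0 : ℝ) < (k : ℝ) := by linarith
  have hmR : (1 : ℝ) ≤ m := by exact_mod_cast hm
  have hrR : (r : ℝ) ≤ k := by exact_mod_cast hr
  have hN : 0 < NN G k := by
    unfold NN
    exact_mod_cast card_pos.2 ⟨x0, hx0⟩
  have hnR : (Fintype.card V : ℝ) = m * k + r := by exact_mod_cast hn
  have hcR : 7 * ((m : ℝ) + 1) ^ 2 * (k : ℝ) ^ 2 ≤ 5 * ((k : ℝ) - 1) * (r * ((k : ℝ) - r)) := by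
    have h : ((7 * (m + 1) ^ 2 * k ^ 2 : ℕ) : ℝ) ≤ ((5 * (k - 1) * (r * (k - r)) : ℕ) : ℝ) := by
      exact_mod_cast hc
    push_cast at h
    rw [Nat.cast_sub (by omega), Nat.cast_sub hr] at h
    push_cast at h
    exact h
  set s : ℝ := (r : ℝ) / k with hsdef
  have hs0 : 0 ≤ s := by positivity
  have hs1 : s ≤ 1 := by rw [hsdef, div_le_one hk0]; exact hrR
  have hrs : (r : ℝ) = k * s := by rw [hsdef]; field_simp
  have hs : 1 / kap V k = m + s := by
    unfold kap
    rw [one_div_div, hnR, hsdef]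
    field_simp
  have e1 : -Real.log (kap V k) = Real.log (m + s) := by
    rw [← Real.log_inv, ← one_div, hs]
  have hcs : 7 / 5 * ((m : ℝ) + 1) ^ 2 ≤ ((k : ℝ) - 1) * (s * (1 - s)) := by
    rw [hrs] at hcR
    have h : (k : ℝ) ^ 2 * (7 / 5 * ((m : ℝ) + 1) ^ 2) ≤
        (k : ℝ) ^ 2 * (((k : ℝ) - 1) * (s * (1 - s))) := by nlinarith
    exact le_of_mul_le_mul_left h (by positivity)
  have h1 := line (G := G) hk tf hne hm hs
  have h2 := interp hmR hs0 hs1
  have h3 : Real.log (2 * m + 1) - Real.log (m + 1) ≤ 7 / 10 := by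
    have h := Real.log_two_lt_d9
    have h4 : Real.log (2 * (m : ℝ) + 1) ≤ Real.log (2 * (m + 1)) :=
      Real.log_le_log (by positivity) (by linarith)
    rw [Real.log_mul (by norm_num) (by positivity)] at h4
    linarith
  have h5 : (7 / 10 : ℝ) ≤ ((k : ℝ) - 1) * (s * (1 - s) / (2 * ((m : ℝ) + 1) ^ 2)) := by
    rw [← mul_div_assoc, le_div_iff₀ (by positivity)]
    linarith
  have h6 := mul_le_mul_of_nonneg_left h2 (by linarith : (0 : ℝ) ≤ (k : ℝ) - 1)
  have hmain : Real.log (NN G k / (2 * (k : ℝ))) ≤ (k : ℝ) * Real.log (m + s) := by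
    rw [e1] at h1
    nlinarith
  have e2 : (Fintype.card V : ℝ) / k = m + s := by
    rw [hnR, hsdef]
    field_simp
  rw [e2]
  have h7 : NN G k / (2 * (k : ℝ)) ≤ ((m : ℝ) + s) ^ k := by
    rw [← Real.log_pow] at hmain
    exact (Real.log_le_log_iff (by positivity) (by positivity)).1 hmain
  rw [div_le_iff₀ (by positivity)] at h7
  linarith

end Pool.Agent.ICycU
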