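import Pool.Agent.Lib.MP_131fce_co.U.IntegerBound

/-!
# Small orders: `n ≤ 2 k - 3` (`k ≥ 11`)
-/

set_option autoImplicit false

namespace Pool.Agent.ICycU

open Finset Pool.Agent.ICycK
open scoped Classical

variable {V : Type} [Fintype V] {G : SimpleGraph V} {k : ℕ} [NeZero k]

lemma log_ge {s : ℝ} (hs : 0 ≤ s) : 2 * s / (2 + s) ≤ Real.log (1 + s) := by
  have := Real.le_log_one_add_of_nonneg hs
  have e : 2 * s / (2 + s) = 2 * s / (s + 2) := by rw [add_comm]
  rw [e]
  exact this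

/-- first line: `log d (d - 1) ≤ log 2 + (d - 2) log 3` -/
lemma lineA (hk : 11 ≤ k) (tf : ∀ a b c : V, G.Adj a b → G.Adj b c → ¬ G.Adj a c)
    (hne : (Cyc G k).Nonempty) {t : ℝ} (ht : 1 / kap V k = 1 + t) :
    Real.log (NN G k / (2 * (k : ℝ))) ≤ -Real.log (kap V k) +
      t * (2 * Real.log 3 + ((k : ℝ) - 3) * Real.log 2) := by
  have h3 : Real.log 3 ≤ 2 * Real.log 2 := by
    have : Real.log 3 ≤ Real.log (2 ^ 2) := Real.log_le_log (by norm_num) (by norm_num)
    rw [Real.log_pow] at this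
    exact_mod_cast this
  have hd : ∀ d : ℕ, 2 ≤ d → Real.log d + Real.log ((d : ℝ) - 1) ≤
      (Real.log 2 - 2 * Real.log 3) + Real.log 3 * d := by
    intro d hd
    have := log_pair_le (le_refl 2) d hd
    have e : ((2 : ℕ) : ℝ) - 1 = 1 := by norm_num
    have e2 : (((2 : ℕ) : ℝ) + 1) / 1 = 3 := by norm_num
    rw [e, e2, Real.log_one] at this
    push_cast at this
    linarith
  have hl : ∀ j : ℕ, 1 ≤ j → Real.log j ≤ -Real.log 2 + Real.log 2 * j := by
    intro j hj
    have := log_nat_le (le_refl 1) j hj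
    unfold lam at this
    have e2 : (((1 : ℕ) : ℝ) + 1) / ((1 : ℕ) : ℝ) = 2 := by norm_num
    rw [e2] at this
    push_cast at this
    rw [Real.log_one] at this
    linarith
  have h := int_bound (G := G) hk tf hne (Real.log_nonneg (by norm_num))
    (Real.log_nonneg (by norm_num)) h3 hd hl
  have e : (2 * Real.log 3 + ((k : ℝ) - 3) * Real.log 2) / kap V k =
      (2 * Real.log 3 + ((k : ℝ) - 3) * Real.log 2) * (1 + t) := by
    rw [← ht]; ring
  rw [e] at h
  linarith

/-- second line: `log d (d - 1) ≤ log 6 + (d - 3) log 2` -/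
lemma lineB (hk : 11 ≤ k) (tf : ∀ a b c : V, G.Adj a b → G.Adj b c → ¬ G.Adj a c)
    (hne : (Cyc G k).Nonempty) {t : ℝ} (ht : 1 / kap V k = 1 + t) :
    Real.log (NN G k / (2 * (k : ℝ))) ≤ -Real.log (kap V k) + (Real.log 3 - Real.log 2) +
      t * (((k : ℝ) - 1) * Real.log 2) := by
  have hd : ∀ d : ℕ, 2 ≤ d → Real.log d + Real.log ((d : ℝ) - 1) ≤
      (Real.log 3 - 2 * Real.log 2) + Real.log 2 * d := by
    intro d hd
    have := log_pair_le (show 2 ≤ 3 by norm_num) d hd
    have e : ((3 : ℕ) : ℝ) - 1 = 2 := by norm_num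
    have e2 : (((3 : ℕ) : ℝ) + 1) / 2 = 2 := by norm_num
    rw [e, e2] at this
    push_cast at this
    linarith
  have hl : ∀ j : ℕ, 1 ≤ j → Real.log j ≤ -Real.log 2 + Real.log 2 * j := by
    intro j hj
    have := log_nat_le (le_refl 1) j hj
    unfold lam at this
    have e2 : (((1 : ℕ) : ℝ) + 1) / ((1 : ℕ) : ℝ) = 2 := by norm_num
    rw [e2] at this
    push_cast at this
    rw [Real.log_one] at this
    linarith
  have h2 : (0 : ℝ) ≤ Real.log 2 := Real.log_nonneg (by norm_num)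
  have h := int_bound (G := G) hk tf hne h2 h2 (by linarith) hd hl
  have e : (2 * Real.log 2 + ((k : ℝ) - 3) * Real.log 2) / kap V k =
      (2 * Real.log 2 + ((k : ℝ) - 3) * Real.log 2) * (1 + t) := by
    rw [← ht]; ring
  rw [e] at h
  linarith

/-- `s ≤ 1 / 2` -/
lemma numA {K s : ℝ} (hK : 11 ≤ K) (hs0 : 0 ≤ s) (hs : s ≤ 1 / 2) :
    s * (2 * Real.log 3 + (K - 3) * Real.log 2) ≤ (K - 1) * Real.log (1 + s) := by
  have h1 := log_ge hs0
  have h2 := Real.log_two_lt_d9
  have h3 : Real.log 3 ≤ 11 / 10 := by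
    rw [Real.log_le_iff_le_exp (by norm_num)]
    have h5 : (3 : ℝ) ≤ Real.exp 1 * Real.exp (1 / 10) := by
      have a := Real.exp_one_gt_d9
      have b := Real.quadratic_le_exp_of_nonneg (show (0 : ℝ) ≤ 1 / 10 by norm_num)
      nlinarith
    rw [← Real.exp_add] at h5
    norm_num at h5 ⊢
    linarith
  have h4 : 4 / 5 * s ≤ 2 * s / (2 + s) := by
    rw [le_div_iff₀ (by linarith)]
    nlinarith
  have h5 : 4 / 5 * s ≤ Real.log (1 + s) := h4.trans h1
  have h6 : (K - 1) * (4 / 5 * s) ≤ (K - 1) * Real.log (1 + s) :=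
    mul_le_mul_of_nonneg_left h5 (by linarith)
  have h7 : 2 * Real.log 3 + (K - 3) * Real.log 2 ≤ (K - 1) * (4 / 5) := by
    nlinarith
  nlinarith

/-- `1 / 2 ≤ s ≤ 1 - 3 / K` -/
lemma numB {K s : ℝ} (hK : 11 ≤ K) (hs0 : 1 / 2 ≤ s) (hs : K * s ≤ K - 3) :
    (Real.log 3 - Real.log 2) + s * ((K - 1) * Real.log 2) ≤ (K - 1) * Real.log (1 + s) := by
  have hs1 : s < 1 := by nlinarith
  have h2 := Real.log_two_gt_d9
  have h3 : Real.log 3 - Real.log 2 ≤ 4055 / 10000 := by
    rw [← Real.log_div (by norm_num) (by norm_num), Real.log_le_iff_le_exp (by norm_num)]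
    have := Real.sum_le_exp_of_nonneg (show (0 : ℝ) ≤ 4055 / 10000 by norm_num) 6
    norm_num [Finset.sum_range_succ, Nat.factorial] at this
    linarith
  -- log (1 + s) = log 2 - log (2 / (1 + s))
  have hy : Real.log (2 / (1 + s)) ≤ (2 / (1 + s) - (1 + s) / 2) / 2 := by
    have hp : 0 < 1 + s := by linarith
    have h1 : (1 : ℝ) ≤ 2 / (1 + s) := by
      rw [le_div_iff₀ hp]
      linarith
    have h := Real.self_le_sinh_iff.2 (Real.log_nonneg h1)
    rw [Real.sinh_log (by positivity), inv_div] at h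
    exact h
  have e : Real.log (1 + s) = Real.log 2 - Real.log (2 / (1 + s)) := by
    rw [Real.log_div (by norm_num) (by linarith)]; ring
  have h4 : (1 - s) * (4431 / 10000 - 1 / (2 * (1 + s))) ≤ Real.log (1 + s) - s * Real.log 2 := by
    have e2 : (2 / (1 + s) - (1 + s) / 2) / 2 = (1 - s) * (1 / 4 + 1 / (2 * (1 + s))) := by
      have : (1 + s) ≠ 0 := by linarith
      field_simp
      ring
    rw [e2] at hy
    rw [e]
    nlinarith
  have h5 : 4055 / 10000 ≤ (K - 1) * ((1 - s) * (4431 / 10000 - 1 / (2 * (1 + s)))) := by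
    have hp : 0 < 1 + s := by linarith
    have e3 : (1 - s) * (4431 / 10000 - 1 / (2 * (1 + s))) =
        (1 - s) * (4431 * (1 + s) - 5000) / (10000 * (1 + s)) := by
      field_simp
      ring
    rw [e3, ← mul_div_assoc, le_div_iff₀ (by positivity)]
    rcases le_total s (8 / 11) with h | h
    · nlinarith [mul_nonneg (sub_nonneg.2 h) (sub_nonneg.2 hs0)]
    · have h6 : 2 + s ≤ (K - 1) * (1 - s) := by nlinarith
      nlinarith [mul_nonneg (sub_nonneg.2 h) (sub_nonneg.2 hs1.le)]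
  nlinarith

/-- the count for `k ≤ n ≤ 2 k - 3`, in logarithmic form -/
theorem NN_le_small (hk : 11 ≤ k) (tf : ∀ a b c : V, G.Adj a b → G.Adj b c → ¬ G.Adj a c)
    (hne : (Cyc G k).Nonempty) (hn : Fintype.card V + 3 ≤ 2 * k) :
    NN G k ≤ 2 * (k : ℝ) * ((Fintype.card V : ℝ) / (k : ℝ)) ^ k := by
  obtain ⟨x0, hx0⟩ := id hne
  have hV : Nonempty V := ⟨x0 0⟩
  have hkR : (11 : ℝ) ≤ (k : ℝ) := by exact_mod_cast hk
  have hk0 : (0 : ℝ) < (k : ℝ) := by linarith
  have hN : 0 < NN G k := by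
    unfold NN
    exact_mod_cast card_pos.2 ⟨x0, hx0⟩
  have hcard : k ≤ Fintype.card V := by
    have := Fintype.card_le_of_injective x0 (isCyc_injective (G := G) (by omega : 5 ≤ k) hx0)
    rwa [ZMod.card] at this
  have hn1 : (k : ℝ) ≤ (Fintype.card V : ℝ) := by exact_mod_cast hcard
  have hn2 : (Fintype.card V : ℝ) + 3 ≤ 2 * (k : ℝ) := by exact_mod_cast hn
  have hn0 : (0 : ℝ) < (Fintype.card V : ℝ) := by linarith
  set n : ℝ := (Fintype.card V : ℝ) with hndef
  set t : ℝ := n / k - 1 with htdef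
  have htk : (k : ℝ) * t = n - k := by
    rw [htdef]; field_simp
  have ht : 1 / kap V k = 1 + t := by
    unfold kap
    rw [← hndef, htdef, one_div_div]
    ring
  have ht0 : 0 ≤ t := by
    rw [htdef, sub_nonneg, le_div_iff₀ hk0]
    linarith
  have e1 : -Real.log (kap V k) = Real.log (1 + t) := by
    rw [← Real.log_inv, ← one_div, ht]
  have hmain : Real.log (NN G k / (2 * (k : ℝ))) ≤ (k : ℝ) * Real.log (1 + t) := by
    rcases le_total t (1 / 2) with h | h
    · have h1 := lineA (G := G) hk tf hne ht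
      have h2 := numA hkR ht0 h
      rw [e1] at h1
      linarith
    · have h1 := lineB (G := G) hk tf hne ht
      have h2 := numB hkR h (by linarith)
      rw [e1] at h1
      linarith
  have e2 : n / k = 1 + t := by rw [htdef]; ring
  rw [e2]
  have h3 : NN G k / (2 * (k : ℝ)) ≤ (1 + t) ^ k := by
    rw [← Real.log_pow] at hmain
    exact (Real.log_le_log_iff (by positivity) (by positivity)).1 hmain
  rw [div_le_iff₀ (by positivity)] at h3
  linarith

end Pool.Agent.ICycU
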