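import Pool.Agent.Lib.MP_131fce_co.U.Kernel

/-!
# The two entropy inequalities (`k ≥ 11`)
-/

set_option autoImplicit false

namespace Pool.Agent.ICycU

open Finset Pool.Agent.ICycK
open scoped Classical

variable {V : Type} [Fintype V] {G : SimpleGraph V} {k : ℕ} [NeZero k]

/-- mean of the kernel over the twin class of `x 0` -/
noncomputable def theta (G : SimpleGraph V) (k : ℕ) [NeZero k] (x : ZMod k → V) : ℝ :=
  (1 / ((T G k 0 x).card : ℝ)) * ∑ z ∈ T G k 0 x, KK G k (x 0) z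

lemma T_card_pos (hk : 11 ≤ k) {x : ZMod k → V} (hx : x ∈ Cyc G k) (j : ZMod k) :
    (0 : ℝ) < ((T G k j x).card : ℝ) := by
  exact_mod_cast card_pos.2 ⟨x j, self_mem_T (by omega) hx j⟩

lemma mu_T_pos (hk : 11 ≤ k) {x : ZMod k → V} (hx : x ∈ Cyc G k) (j : ZMod k) :
    0 < mu k (T G k j x) := by
  have : Nonempty V := ⟨x 0⟩
  exact mul_pos kap_pos (T_card_pos hk hx j)

lemma T_subset_nb (x : ZMod k → V) : T G k 0 x ⊆ nb G (x 1) := by
  intro w hw
  rw [bas_mem_nb]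
  have h := bas_mem_T.1 hw
  have h1 : (1 : ZMod k) ∈ Ty G k x w := by
    rw [h]; simp
  exact bas_mem_Ty.1 h1

lemma theta_nonneg (x : ZMod k → V) : 0 ≤ theta G k x :=
  mul_nonneg (by positivity) (sum_nonneg fun z _ => KK_nonneg _ _)

lemma theta_le_one (x : ZMod k → V) : theta G k x ≤ 1 := by
  unfold theta
  have h1 : ∑ z ∈ T G k 0 x, KK G k (x 0) z ≤ ((T G k 0 x).card : ℝ) := by
    have := sum_le_sum (s := T G k 0 x) (fun z _ => KK_le_one (G := G) (k := k) (x 0) z)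
    rwa [sum_const, nsmul_eq_mul, mul_one] at this
  rw [one_div, inv_mul_eq_div]
  exact div_le_one_of_le₀ h1 (Nat.cast_nonneg _)

lemma ZK_le (hk : 11 ≤ k) {x : ZMod k → V} (hx : x ∈ Cyc G k) :
    ZK G k (KK G k) x ≤ dg G k (x 1) - (1 - theta G k x) * mu k (T G k 0 x) := by
  have hsub := T_subset_nb (G := G) x
  have hT := T_card_pos (G := G) hk hx 0
  have h1 : ∑ z ∈ nb G (x 1), KK G k (x 0) z =
      ∑ z ∈ nb G (x 1) \ T G k 0 x, KK G k (x 0) z + ∑ z ∈ T G k 0 x, KK G k (x 0) z :=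
    (sum_sdiff hsub).symm
  have h2 : ∑ z ∈ nb G (x 1) \ T G k 0 x, KK G k (x 0) z ≤
      ((nb G (x 1)).card : ℝ) - ((T G k 0 x).card : ℝ) := by
    have := sum_le_sum (s := nb G (x 1) \ T G k 0 x)
      (fun z _ => KK_le_one (G := G) (k := k) (x 0) z)
    rw [sum_const, nsmul_eq_mul, mul_one, card_sdiff_of_subset hsub,
      Nat.cast_sub (card_le_card hsub)] at this
    exact this
  have h3 : ∑ z ∈ T G k 0 x, KK G k (x 0) z = theta G k x * ((T G k 0 x).card : ℝ) := by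
    unfold theta
    field_simp
  have hκ : 0 ≤ kap V k := kap_nonneg
  unfold ZK dg mu
  rw [h1, h3]
  have h4 := mul_le_mul_of_nonneg_left h2 hκ
  nlinarith

lemma log_T_rot : ∑ x ∈ Cyc G k, Real.log (mu k (T G k (-1) x)) =
    ∑ x ∈ Cyc G k, Real.log (mu k (T G k 0 x)) := by
  rw [← sum_rot (G := G) (k := k) 1 (fun x => Real.log (mu k (T G k (-1) x)))]
  refine sum_congr rfl fun x _ => ?_
  rw [T_rot, neg_add_cancel]

lemma dg_pos (hk : 11 ≤ k) {x : ZMod k → V} (hx : x ∈ Cyc G k) : 0 < dg G k (x 1) := by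
  have : Nonempty V := ⟨x 0⟩
  unfold dg mu
  have : x 0 ∈ nb G (x 1) := bas_mem_nb.2 (adj10 hk hx)
  have h2 : (0 : ℝ) < ((nb G (x 1)).card : ℝ) := by exact_mod_cast card_pos.2 ⟨_, this⟩
  exact mul_pos kap_pos h2

lemma log_dg (hk : 11 ≤ k) {x : ZMod k → V} (hx : x ∈ Cyc G k) :
    Real.log (dg G k (x 1) / 2) ≤ dg G k (x 1) / 2 - 1 :=
  Real.log_le_sub_one_of_pos (by have := dg_pos hk hx; positivity)

lemma mu_T_rot : ∑ x ∈ Cyc G k, mu k (T G k 0 x) = ∑ x ∈ Cyc G k, mu k (T G k (-1) x) := by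
  rw [← sum_rot (G := G) (k := k) 1 (fun x => mu k (T G k (-1) x))]
  refine sum_congr rfl fun x _ => ?_
  rw [T_rot, neg_add_cancel]

/-- the entropy inequality -/
theorem entropy (hk : 11 ≤ k) (tf : ∀ a b c : V, G.Adj a b → G.Adj b c → ¬ G.Adj a c)
    (hne : (Cyc G k).Nonempty) :
    NN G k * Real.log (NN G k * kap V k ^ k / (2 * (k : ℝ))) ≤
      51 / 25 * (∑ x ∈ Cyc G k, dg G k (x 1) / 2) +
      24 / 25 * (∑ x ∈ Cyc G k, mu k (T G k (-1) x)) +
      Real.log (37 / 24) * ∑ x ∈ Cyc G k, theta G k x -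
      NN G k * (3 + Real.log (481 / 625)) +
      ∑ l ∈ Icc 2 (k - 3), ∑ x ∈ Cyc G k, (mu k (F G k l x) - 1) := by
  have h := gibbs (G := G) (k := k) hk tf (K := KK G k) KK_nonneg (fun x hx => KK_pos hk hx) hne
  have hw := windows (G := G) hk
  have h1 : ∑ x ∈ Cyc G k, (Real.log (dg G k (x 1) / 2) + Real.log (ZK G k (KK G k) x) -
        Real.log (KK G k (x 0) (x 2)) + Real.log (mu k (T G k (-1) x))) =
      ∑ x ∈ Cyc G k, (Real.log (dg G k (x 1) / 2) + Real.log (ZK G k (KK G k) x) +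
        Real.log (mu k (T G k 0 x))) + 7 * DD G k := by
    have e1 : 7 * DD G k = ∑ x ∈ Cyc G k, -Real.log (KK G k (x 0) (x 2)) := by
      unfold DD
      rw [mul_sum]
      exact sum_congr rfl fun x hx => (log_KK hk hx).symm
    rw [e1, sum_add_distrib, sum_sub_distrib, log_T_rot, sum_add_distrib (f := fun x =>
      Real.log (dg G k (x 1) / 2) + Real.log (ZK G k (KK G k) x)), sum_neg_distrib]
    ring
  rw [h1] at h
  have h2 : ∑ x ∈ Cyc G k, (Real.log (dg G k (x 1) / 2) + Real.log (ZK G k (KK G k) x) +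
        Real.log (mu k (T G k 0 x))) ≤
      51 / 25 * (∑ x ∈ Cyc G k, dg G k (x 1) / 2) +
      24 / 25 * (∑ x ∈ Cyc G k, mu k (T G k (-1) x)) +
      Real.log (37 / 24) * ∑ x ∈ Cyc G k, theta G k x -
      NN G k * (3 + Real.log (481 / 625)) := by
    have e1 : NN G k * (3 + Real.log (481 / 625)) =
        ∑ _x ∈ Cyc G k, (3 + Real.log (481 / 625)) := by
      unfold NN; rw [sum_const, nsmul_eq_mul]
    rw [e1, ← mu_T_rot, mul_sum, mul_sum, mul_sum, ← sum_add_distrib, ← sum_add_distrib,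
      ← sum_sub_distrib]
    refine sum_le_sum fun x hx => ?_
    have hZ := ZK_pos (G := G) (K := KK G k) hk KK_nonneg hx (KK_pos hk hx)
    have h3 := log_ineq hZ (mu_T_pos hk hx 0) (theta_nonneg x) (theta_le_one x) (ZK_le hk hx)
    have h4 := log_dg (G := G) hk hx
    linarith
  linarith

end Pool.Agent.ICycU
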