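import Pool.Agent.Lib.MP_131fce_co.K.Closing
import Pool.Agent.Lib.MP_131fce_co.K.CntLe
import Pool.Agent.Lib.MP_131fce_co.U.Two

/-!
# Types: the twin swap and the coefficients (`k ≥ 11`)
-/

set_option autoImplicit false

namespace Pool.Agent.ICycU

open Finset Pool.Agent.ICycK
open scoped Classical

variable {V : Type} [Fintype V] {G : SimpleGraph V} {k : ℕ} [NeZero k]

/-- twin types -/
def isT (k : ℕ) (S : Finset (ZMod k)) : Prop := ∃ j : ZMod k, S = {j - 1, j + 1}

/-- mass of the neighbours of `x 0` whose type is not a twin type -/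
noncomputable def gT (G : SimpleGraph V) (k : ℕ) [NeZero k] (x : ZMod k → V) : ℝ :=
  ∑ w : V, if (0 : ZMod k) ∈ Ty G k x w ∧ ¬ isT k (Ty G k x w) then kap V k else 0

/-- mass of the vertices of type `{i}` -/
noncomputable def sT (G : SimpleGraph V) (k : ℕ) [NeZero k] (i : ZMod k) (x : ZMod k → V) : ℝ :=
  ∑ w : V, if Ty G k x w = {i} then kap V k else 0

/-- cardinality, zero on twin types -/
noncomputable def gc (k : ℕ) (S : Finset (ZMod k)) : ℝ := if isT k S then 0 else (S.card : ℝ)

omit [NeZero k] in
theorem two_ne (hk : 11 ≤ k) : (2 : ZMod k) ≠ 0 := by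
  intro h
  have h' : ((2 : ℕ) : ZMod k) = 0 := by exact_mod_cast h
  rw [ZMod.natCast_eq_zero_iff] at h'
  have := Nat.le_of_dvd (by norm_num) h'
  omega

omit [NeZero k] in
theorem four_ne (hk : 11 ≤ k) : (4 : ZMod k) ≠ 0 := by
  intro h
  have h' : ((4 : ℕ) : ZMod k) = 0 := by exact_mod_cast h
  rw [ZMod.natCast_eq_zero_iff] at h'
  have := Nat.le_of_dvd (by norm_num) h'
  omega

omit [NeZero k] in
theorem sub_ne_add (hk : 11 ≤ k) (j : ZMod k) : j - 1 ≠ j + 1 := by
  intro h
  apply two_ne hk
  have h2 : (2 : ZMod k) = (j + 1) - (j - 1) := by ring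
  rw [h2, ← h]
  ring

omit [NeZero k] in
theorem pair_card (hk : 11 ≤ k) (j : ZMod k) : ({j - 1, j + 1} : Finset (ZMod k)).card = 2 :=
  Finset.card_pair (sub_ne_add hk j)

omit [NeZero k] in
theorem pair_inj (hk : 11 ≤ k) {i j : ZMod k}
    (h : ({i - 1, i + 1} : Finset (ZMod k)) = {j - 1, j + 1}) : i = j := by
  have h1 : i - 1 ∈ ({j - 1, j + 1} : Finset (ZMod k)) := by rw [← h]; simp
  have h2 : i + 1 ∈ ({j - 1, j + 1} : Finset (ZMod k)) := by rw [← h]; simp
  simp only [mem_insert, mem_singleton] at h1 h2
  rcases h1 with h1 | h1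
  · linear_combination h1
  · rcases h2 with h2 | h2
    · exfalso
      apply four_ne hk
      have h3 : (4 : ZMod k) = 0 := by linear_combination h2 - h1
      exact h3
    · linear_combination h2

theorem sum_T_boole (hk : 11 ≤ k) {x : ZMod k → V} {w : V} {j : ZMod k}
    (hw : Ty G k x w = {j - 1, j + 1}) :
    (∑ i : ZMod k, if w ∈ T G k i x then (1 : ℝ) else 0) = 1 := by
  rw [Finset.sum_eq_single j]
  · rw [if_pos]
    exact bas_mem_T.2 hw
  · intro i _ hij
    rw [if_neg]
    intro h
    rw [bas_mem_T, hw] at h
    exact hij (pair_inj hk h).symm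
  · intro h
    exact absurd (mem_univ j) h

theorem cnt_one (hk : 11 ≤ k) {x : ZMod k → V} {w : V} (h : (Ty G k x w).card = 1) :
    cnt G k x w ≤ (k : ℝ) - 4 := by
  obtain ⟨b, hb⟩ := Finset.card_eq_one.mp h
  unfold cnt
  rw [Finset.sum_comm]
  calc _ ≤ ∑ _l ∈ Finset.Icc 2 (k - 3), (1 : ℝ) := by
        apply Finset.sum_le_sum
        intro l _
        calc _ ≤ ∑ a : ZMod k, (if a = b - (l : ZMod k) then (1 : ℝ) else 0) := by
              apply Finset.sum_le_sum
              intro a _
              split_ifs with h1 h2 h2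
              · exact le_refl _
              · exfalso
                apply h2
                have := (ic15_mem_F_rot.mp h1).2
                rw [hb, Finset.mem_singleton] at this
                rw [← this]
                ring
              · norm_num
              · exact le_refl _
          _ = 1 := by simp
    _ = (k : ℝ) - 4 := by
        rw [Finset.sum_const, Nat.card_Icc, nsmul_eq_mul, mul_one]
        have : k - 3 + 1 - 2 = k - 4 := by omega
        rw [this, Nat.cast_sub (by omega)]
        norm_num

theorem cnt_two (tf : ∀ a b c : V, G.Adj a b → G.Adj b c → ¬ G.Adj a c)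
    {x : ZMod k → V} (hx : x ∈ Cyc G k) (w : V) :
    cnt G k x w ≤ (k : ℝ) - 2 * ((Ty G k x w).card : ℝ) := by
  refine (ic15_cnt_le_free x w).trans ?_
  have h2 := ic15_card_free_pair (Ty G k x w) (fun i hi => ic15_Ty_indep_aux tf hx hi)
  have h3 : (((univ.filter (fun a : ZMod k => a ∉ Ty G k x w ∧ a + 1 ∉ Ty G k x w)).card : ℝ)) +
      2 * ((Ty G k x w).card : ℝ) = (k : ℝ) := by
    exact_mod_cast h2
  linarith

lemma Ty_rot_isT (a : ZMod k) (x : ZMod k → V) (w : V) :
    isT k (Ty G k (fun i => x (i + a)) w) ↔ isT k (Ty G k x w) := by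
  constructor
  · rintro ⟨j, hj⟩
    refine ⟨j + a, ?_⟩
    ext i
    have h := mem_Ty_rot (G := G) a x w (i - a)
    rw [sub_add_cancel, hj] at h
    rw [← h]
    simp only [mem_insert, mem_singleton]
    constructor
    · rintro (h | h)
      · left; linear_combination h
      · right; linear_combination h
    · rintro (h | h)
      · left; linear_combination h
      · right; linear_combination h
  · rintro ⟨j, hj⟩
    refine ⟨j - a, ?_⟩
    ext i
    rw [mem_Ty_rot, hj]
    simp only [mem_insert, mem_singleton]
    constructor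
    · rintro (h | h)
      · left; linear_combination h
      · right; linear_combination h
    · rintro (h | h)
      · left; linear_combination h
      · right; linear_combination h

lemma k_mul_gT : (k : ℝ) * ∑ x ∈ Cyc G k, gT G k x =
    ∑ x ∈ Cyc G k, ∑ w : V, kap V k * gc k (Ty G k x w) := by
  rw [k_mul_sum (fun x => gT G k x)]
  refine sum_congr rfl fun x _ => ?_
  unfold gT
  rw [sum_comm]
  refine sum_congr rfl fun w _ => ?_
  have h1 : ∀ a : ZMod k, (if (0 : ZMod k) ∈ Ty G k (fun i => x (i + a)) w ∧
      ¬ isT k (Ty G k (fun i => x (i + a)) w) then kap V k else 0) =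
      if a ∈ Ty G k x w then (if isT k (Ty G k x w) then 0 else kap V k) else 0 := by
    intro a
    simp only [mem_Ty_rot, Ty_rot_isT, zero_add]
    by_cases h : a ∈ Ty G k x w <;> by_cases h' : isT k (Ty G k x w) <;> simp [h, h']
  rw [sum_congr rfl (fun a _ => h1 a), ← sum_filter]
  have h2 : univ.filter (fun a => a ∈ Ty G k x w) = Ty G k x w := by ext; simp
  rw [h2, sum_const, nsmul_eq_mul]
  unfold gc
  split_ifs <;> ring

/-- a vertex gained by a twin swap at position `0` -/
lemma gained (hk : 11 ≤ k) (x : ZMod k → V) (z : V) :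
    aK G k (x 0) z ≤ gT G k (Function.update x 0 z) + (sT G k 2 x + sT G k (-2) x) := by
  unfold aK gT sT
  rw [mu_filter_eq, nb, sum_filter, ← sum_add_distrib, ← sum_add_distrib]
  refine sum_le_sum fun w _ => ?_
  have hκ : 0 ≤ kap V k := kap_nonneg
  have hn0 : ∀ (p : Prop) [Decidable p], 0 ≤ (if p then kap V k else 0) := by
    intro p _; split_ifs <;> simp [hκ]
  by_cases h1 : G.Adj z w
  · by_cases h2 : G.Adj (x 0) w
    · rw [if_pos h1, if_neg (not_not.2 h2), mul_zero]
      have := hn0 ((0 : ZMod k) ∈ Ty G k (Function.update x 0 z) w ∧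
        ¬ isT k (Ty G k (Function.update x 0 z) w))
      have h3 := hn0 (Ty G k x w = {2})
      have h4 := hn0 (Ty G k x w = {-2})
      linarith
    · rw [if_pos h1, if_pos h2, mul_one]
      have h0 : (0 : ZMod k) ∈ Ty G k (Function.update x 0 z) w := by
        rw [bas_mem_Ty, Function.update_self]; exact h1
      have h3 := hn0 (Ty G k x w = {2})
      have h4 := hn0 (Ty G k x w = {-2})
      by_cases hT : isT k (Ty G k (Function.update x 0 z) w)
      · have h5 := hn0 ((0 : ZMod k) ∈ Ty G k (Function.update x 0 z) w ∧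
          ¬ isT k (Ty G k (Function.update x 0 z) w))
        have hother : ∀ i : ZMod k, i ≠ 0 →
            (i ∈ Ty G k x w ↔ i ∈ Ty G k (Function.update x 0 z) w) := by
          intro i hi
          rw [bas_mem_Ty, bas_mem_Ty, Function.update_of_ne hi]
        have hz : (0 : ZMod k) ∉ Ty G k x w := by rw [bas_mem_Ty]; exact h2
        obtain ⟨j, hj⟩ := hT
        have h2ne := two_ne hk
        rw [hj, mem_insert, mem_singleton] at h0
        rcases h0 with h0 | h0
        · have hj1 : j = 1 := by linear_combination -h0
          have : Ty G k x w = {2} := by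
            ext i
            rw [mem_singleton]
            by_cases hi : i = 0
            · rw [hi]
              exact ⟨fun h => absurd h hz, fun h => absurd h.symm h2ne⟩
            · rw [hother i hi, hj, hj1, mem_insert, mem_singleton]
              constructor
              · rintro (h | h)
                · exfalso; apply hi; linear_combination h
                · linear_combination h
              · intro h
                right; linear_combination h
          rw [if_pos this]
          linarith
        · have hj1 : j = -1 := by linear_combination -h0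
          have : Ty G k x w = {-2} := by
            ext i
            rw [mem_singleton]
            by_cases hi : i = 0
            · rw [hi]
              exact ⟨fun h => absurd h hz, fun h => absurd (by linear_combination h) h2ne⟩
            · rw [hother i hi, hj, hj1, mem_insert, mem_singleton]
              constructor
              · rintro (h | h)
                · linear_combination h
                · exfalso; apply hi; linear_combination h
              · intro h
                left; linear_combination h
          rw [if_pos this]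
          linarith
      · rw [if_pos ⟨h0, hT⟩]
        linarith
  · rw [if_neg h1]
    have := hn0 ((0 : ZMod k) ∈ Ty G k (Function.update x 0 z) w ∧
        ¬ isT k (Ty G k (Function.update x 0 z) w))
    have h3 := hn0 (Ty G k x w = {2})
    have h4 := hn0 (Ty G k x w = {-2})
    linarith

/-- the twin swap -/
theorem sum_theta (hk : 11 ≤ k) (tf : ∀ a b c : V, G.Adj a b → G.Adj b c → ¬ G.Adj a c) :
    (k : ℝ) * ∑ x ∈ Cyc G k, theta G k x ≤
      rh * (∑ x ∈ Cyc G k, ∑ w : V, kap V k * gc k (Ty G k x w) +
        2 * ∑ x ∈ Cyc G k, ∑ w : V, (if (Ty G k x w).card = 1 then kap V k else 0)) := by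
  have hswap := sum_swap (G := G) (k := k) (by omega) tf 0
    (fun x _ => (1 / ((T G k 0 x).card : ℝ)) * gT G k x)
  have h1 : ∀ x ∈ Cyc G k, theta G k x ≤ rh *
      (∑ v ∈ T G k 0 x, (1 / ((T G k 0 (Function.update x 0 v)).card : ℝ)) *
        gT G k (Function.update x 0 v) + (sT G k 2 x + sT G k (-2) x)) := by
    intro x hx
    have hT := T_card_pos (G := G) hk hx 0
    have e1 : ∑ v ∈ T G k 0 x, (1 / ((T G k 0 (Function.update x 0 v)).card : ℝ)) *
        gT G k (Function.update x 0 v) =
        (1 / ((T G k 0 x).card : ℝ)) * ∑ v ∈ T G k 0 x, gT G k (Function.update x 0 v) := by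
      rw [mul_sum]
      refine sum_congr rfl fun v hv => ?_
      rw [T_update (by omega) hx hv tf]
    have e2 : sT G k 2 x + sT G k (-2) x = (1 / ((T G k 0 x).card : ℝ)) *
        ∑ _v ∈ T G k 0 x, (sT G k 2 x + sT G k (-2) x) := by
      rw [sum_const, nsmul_eq_mul]
      field_simp
    rw [e1, e2, ← mul_add, ← sum_add_distrib]
    unfold theta
    rw [mul_left_comm, mul_sum (T G k 0 x) _ rh]
    refine mul_le_mul_of_nonneg_left (sum_le_sum fun z _ => ?_) (by positivity)
    refine (KK_le _ _).trans ?_
    refine mul_le_mul_of_nonneg_left ?_ (zero_le_one.trans one_le_rh)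
    have h5 := gained (G := G) hk x z
    linarith
  have h2 := sum_le_sum h1
  rw [← mul_sum, sum_add_distrib, hswap, sum_add_distrib] at h2
  have h3 : ∑ x ∈ Cyc G k, ∑ v ∈ T G k 0 x, (1 / ((T G k 0 x).card : ℝ)) * gT G k x =
      ∑ x ∈ Cyc G k, gT G k x := by
    refine sum_congr rfl fun x hx => ?_
    have hT := T_card_pos (G := G) hk hx 0
    rw [sum_const, nsmul_eq_mul]
    field_simp
  rw [h3] at h2
  have h4 := k_mul_gT (G := G) (k := k)
  have h5 := single_eq (G := G) (k := k) 2
  have h6 := single_eq (G := G) (k := k) (-2)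
  have h7 := mul_le_mul_of_nonneg_left h2 (Nat.cast_nonneg k : (0 : ℝ) ≤ (k : ℝ))
  refine h7.trans (le_of_eq ?_)
  unfold sT
  rw [← h4]
  linear_combination rh * h5 + rh * h6

end Pool.Agent.ICycU
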